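import Pool.Agent.Helper10.SP.GoalsT
import Pool.Agent.Helper70.Lin.LevIbp

/-! # Packet HODG: Hodge decomposition of closed forms on a compact Kähler quotient -/

open Complex Metric Set Filter Topology MeasureTheory
open scoped ContDiff ComplexConjugate ComplexOrder Manifold

namespace Pool.Agent.Helper93.SP

open Pool.Agent.Helper95.Lin Pool.Agent.Helper16.Abund Pool.Agent.Helper92.Orb
open Pool.Agent.Helper10.SP

universe u v

/-! ## Real analysis -/

/-- The Cauchy-Schwarz inequality with a weight. -/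
theorem cs_weight {α : Type*} [MeasurableSpace α] (μ : Measure α) (w f g : α → ℝ)
    (hw : ∀ᵐ x ∂μ, 0 ≤ w x) (h1 : Integrable (fun x => w x * f x ^ 2) μ)
    (h2 : Integrable (fun x => w x * g x ^ 2) μ)
    (h3 : Integrable (fun x => w x * (f x * g x)) μ) :
    (∫ x, w x * (f x * g x) ∂μ) ^ 2 ≤ (∫ x, w x * f x ^ 2 ∂μ) * ∫ x, w x * g x ^ 2 ∂μ := by
  set A := ∫ x, w x * f x ^ 2 ∂μ with hA
  set B := ∫ x, w x * (f x * g x) ∂μ with hB
  set C := ∫ x, w x * g x ^ 2 ∂μ with hC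
  have key : ∀ t : ℝ, 0 ≤ A * (t * t) + (2 * B) * t + C := by
    intro t
    have h0 : 0 ≤ ∫ x, w x * (t * f x + g x) ^ 2 ∂μ :=
      integral_nonneg_of_ae (by filter_upwards [hw] with x hx; simp only [Pi.zero_apply]; positivity)
    have h : ∫ x, w x * (t * f x + g x) ^ 2 ∂μ = A * (t * t) + (2 * B) * t + C := by
      have e : (fun x => w x * (t * f x + g x) ^ 2) = fun x => (t * t) * (w x * f x ^ 2) +
          ((2 * t) * (w x * (f x * g x)) + w x * g x ^ 2) := by
        ext x; ring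
      have i1 : Integrable (fun x => (t * t) * (w x * f x ^ 2)) μ := h1.const_mul _
      have i3 : Integrable (fun x => (2 * t) * (w x * (f x * g x))) μ := h3.const_mul _
      have i4 : Integrable (fun x => (2 * t) * (w x * (f x * g x)) + w x * g x ^ 2) μ :=
        i3.add h2
      rw [e, integral_add i1 i4, integral_add i3 h2, integral_const_mul, integral_const_mul]
      ring
    linarith
  have := discrim_le_zero key
  unfold discrim at this
  nlinarith

theorem tendsto_zero_of_sq {Y X : ℕ → ℝ} (hX : Tendsto X atTop (𝓝 0)) (h : ∀ j, Y j ^ 2 ≤ X j) :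
    Tendsto Y atTop (𝓝 0) := by
  have h1 : Tendsto (fun j => Y j ^ 2) atTop (𝓝 0) := squeeze_zero (fun j => sq_nonneg _) h hX
  have h2 : Tendsto (fun j => |Y j|) atTop (𝓝 0) := by
    have := (Real.continuous_sqrt.tendsto 0).comp h1
    simpa [Function.comp_def, Real.sqrt_sq_eq_abs] using this
  exact (tendsto_zero_iff_abs_tendsto_zero _).2 h2

theorem intOn {n : ℕ} {T : Set (Cn n)} (hT : IsOpen T) {κ : Cn n → ℝ} (hκ : TestF T κ)
    {F : Cn n → ℝ} (hF : ContinuousOn F T) : IntegrableOn (fun x => κ x * F x) T := by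
  have h1 : IntegrableOn (fun x => κ x * F x) (tsupport κ) :=
    (hκ.1.continuous.continuousOn.mul (hF.mono hκ.2.2)).integrableOn_compact hκ.2.1
  refine h1.of_forall_sdiff_eq_zero hT.measurableSet fun x hx => ?_
  rw [image_eq_zero_of_notMem_tsupport hx.2, zero_mul]

theorem memLp_cpt {n : ℕ} {C : Set (Cn n)} (hC : IsCompact C) {f : Cn n → ℝ}
    (hf : ContinuousOn f C) : MemLp f 2 (volume.restrict C) := by
  have : IsFiniteMeasure (volume.restrict C : Measure (Cn n)) :=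
    ⟨by simpa using hC.measure_lt_top⟩
  obtain ⟨B, hB⟩ := (hC.image_of_continuousOn hf).isBounded.exists_norm_le
  refine MemLp.of_bound (hf.aestronglyMeasurable_of_isCompact hC hC.measurableSet) B ?_
  filter_upwards [ae_restrict_mem hC.measurableSet] with x hx
  exact hB _ (mem_image_of_mem f hx)

/-! ## Wirtinger derivatives -/

theorem cd_lin {n : ℕ} (l : Fin n) {f g : Cn n → ℂ} {x : Cn n} (hf : DifferentiableAt ℝ f x)
    (hg : DifferentiableAt ℝ g x) (c : ℂ) :
    cd l (fun y => f y + c * g y) x = cd l f x + c * cd l g x := by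
  have h : fderiv ℝ (fun y => f y + c * g y) x = fderiv ℝ f x + c • fderiv ℝ g x := by
    rw [fderiv_fun_add hf (hg.const_mul c), fderiv_const_mul hg]
  unfold cd
  rw [h]
  simp only [add_apply, smul_apply, smul_eq_mul]
  ring

theorem cdb_lin {n : ℕ} (l : Fin n) {f g : Cn n → ℂ} {x : Cn n} (hf : DifferentiableAt ℝ f x)
    (hg : DifferentiableAt ℝ g x) (c : ℂ) :
    cdb l (fun y => f y + c * g y) x = cdb l f x + c * cdb l g x := by
  have h : fderiv ℝ (fun y => f y + c * g y) x = fderiv ℝ f x + c • fderiv ℝ g x := by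
    rw [fderiv_fun_add hf (hg.const_mul c), fderiv_const_mul hg]
  unfold cdb
  rw [h]
  simp only [add_apply, smul_apply, smul_eq_mul]
  ring

theorem cd_congr {n : ℕ} (l : Fin n) {f g : Cn n → ℂ} {x : Cn n} (h : f =ᶠ[𝓝 x] g) :
    cd l f x = cd l g x := by
  unfold cd
  rw [h.fderiv_eq]

theorem cd_sum {n : ℕ} {ι : Type*} (s : Finset ι) (l : Fin n) {f : ι → Cn n → ℂ} {x : Cn n}
    (hf : ∀ i ∈ s, DifferentiableAt ℝ (f i) x) :
    cd l (fun y => ∑ i ∈ s, f i y) x = ∑ i ∈ s, cd l (f i) x := by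
  unfold cd
  rw [fderiv_fun_sum hf]
  simp only [sum_apply, Finset.mul_sum, ← Finset.sum_sub_distrib]

/-- Second derivatives are linear. -/
theorem cdcdb_lin {n : ℕ} (hWIRT : S_WIRT) {T : Set (Cn n)} (hT : IsOpen T) {f g : Cn n → ℂ}
    (hf : ContDiffOn ℝ ∞ f T) (hg : ContDiffOn ℝ ∞ g T) (c : ℂ) (j k : Fin n) {x : Cn n}
    (hx : x ∈ T) : cd j (cdb k (fun y => f y + c * g y)) x =
      cd j (cdb k f) x + c * cd j (cdb k g) x := by
  have hf' := (hWIRT T hT f g hf hg).1 k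
  have hg' := (hWIRT T hT g f hg hf).1 k
  have hd : ∀ {u : Cn n → ℂ}, ContDiffOn ℝ ∞ u T → ∀ y ∈ T, DifferentiableAt ℝ u y := by
    intro u hu y hy
    exact (hu.differentiableOn (by simp)).differentiableAt (hT.mem_nhds hy)
  rw [cd_congr j (g := fun y => cdb k f y + c * cdb k g y), cd_lin j (hd hf'.2 x hx)
    (hd hg'.2 x hx)]
  filter_upwards [hT.mem_nhds hx] with y hy
  exact cdb_lin k (hd hf y hy) (hd hg y hy) c

theorem LM_lin {n : ℕ} (hWIRT : S_WIRT) {T : Set (Cn n)} (hT : IsOpen T) {f g : Cn n → ℝ}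
    (hf : ContDiffOn ℝ ∞ f T) (hg : ContDiffOn ℝ ∞ g T) (c : ℝ) {x : Cn n}
    (hx : x ∈ T) : LM (fun y => f y + c * g y) x = LM f x + (c : ℂ) • LM g x := by
  ext j k
  simp only [LM, Matrix.of_apply, Matrix.add_apply, Matrix.smul_apply, smul_eq_mul]
  have h := cdcdb_lin hWIRT hT (f := fun y => (f y : ℂ)) (g := fun y => (g y : ℂ))
    (Complex.ofRealCLM.contDiff.comp_contDiffOn hf)
    (Complex.ofRealCLM.contDiff.comp_contDiffOn hg) (c : ℂ) j k hx
  rw [← h]
  congr 2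
  ext y
  push_cast
  rfl

theorem trL_lin {n : ℕ} (hWIRT : S_WIRT) {T : Set (Cn n)} (hT : IsOpen T)
    (H : Cn n → Matrix (Fin n) (Fin n) ℂ) {f g : Cn n → ℝ}
    (hf : ContDiffOn ℝ ∞ f T) (hg : ContDiffOn ℝ ∞ g T) (c : ℝ) {x : Cn n}
    (hx : x ∈ T) : trL H (fun y => f y + c * g y) x = trL H f x + (c : ℂ) * trL H g x := by
  unfold trL
  rw [LM_lin hWIRT hT hf hg c hx, Matrix.mul_add, Matrix.mul_smul, Matrix.trace_add,
    Matrix.trace_smul, smul_eq_mul]

theorem trL_const {n : ℕ} (H : Cn n → Matrix (Fin n) (Fin n) ℂ) (c : ℝ) (x : Cn n) :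
    trL H (fun _ => c) x = 0 := by
  have h1 : ∀ k, cdb k (fun _ : Cn n => (c : ℂ)) = fun _ => 0 := by
    intro k
    ext y
    simp [cdb]
  have h2 : LM (fun _ : Cn n => c) x = 0 := by
    ext j k
    simp only [LM, Matrix.of_apply, h1, Matrix.zero_apply]
    simp [cd]
  simp [trL, h2]

/-- The operator in terms of second derivatives. -/
theorem boxO_eq {n : ℕ} (hWIRT : S_WIRT) {T : Set (Cn n)} (hT : IsOpen T)
    (H : Cn n → Matrix (Fin n) (Fin n) ℂ) (hHs : ∀ j k, ContDiffOn ℝ ∞ (fun x => (H x)⁻¹ j k) T)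
    (hWs : ContDiffOn ℝ ∞ (fun x => (H x).det.re) T) (hWp : ∀ x ∈ T, 0 < (H x).det.re)
    (hdiv : ∀ x ∈ T, ∀ j, ∑ k, cd k (fun y => ((H y).det.re : ℂ) * (H y)⁻¹ j k) x = 0)
    {h : Cn n → ℂ} (hh : ContDiffOn ℝ ∞ h T) {x : Cn n} (hx : x ∈ T) :
    boxO H (fun x => (H x).det.re) h x = - ∑ k, ∑ j, (H x)⁻¹ j k * cd k (cdb j h) x := by
  have hd : ∀ {u : Cn n → ℂ}, ContDiffOn ℝ ∞ u T → ∀ y ∈ T, DifferentiableAt ℝ u y := by
    intro u hu y hy
    exact (hu.differentiableOn (by simp)).differentiableAt (hT.mem_nhds hy)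
  have hf : ∀ j k, ContDiffOn ℝ ∞ (fun y => ((H y).det.re : ℂ) * (H y)⁻¹ j k) T := fun j k =>
    (Complex.ofRealCLM.contDiff.comp_contDiffOn hWs).mul (hHs j k)
  have hc : ∀ j, ContDiffOn ℝ ∞ (cdb j h) T := fun j => ((hWIRT T hT h h hh hh).1 j).2
  have h1 : ∀ k, cd k (fun y => ((H y).det.re : ℂ) * vfld H h y k) x =
      ∑ j, (((H x).det.re : ℂ) * (H x)⁻¹ j k * cd k (cdb j h) x +
        cdb j h x * cd k (fun y => ((H y).det.re : ℂ) * (H y)⁻¹ j k) x) := by
    intro k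
    have e : (fun y => ((H y).det.re : ℂ) * vfld H h y k) =
        fun y => ∑ j, (((H y).det.re : ℂ) * (H y)⁻¹ j k) * cdb j h y := by
      ext y
      simp only [vfld, Finset.mul_sum]
      exact Finset.sum_congr rfl fun j _ => by ring
    rw [e, cd_sum _ _ (fun j _ => hd ((hf j k).mul (hc j)) x hx)]
    refine Finset.sum_congr rfl fun j _ => ?_
    exact ((hWIRT T hT _ _ (hf j k) (hc j)).2.2.1 k x hx).1
  have h2 : ∑ k, cd k (fun y => ((H y).det.re : ℂ) * vfld H h y k) x =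
      ((H x).det.re : ℂ) * ∑ k, ∑ j, (H x)⁻¹ j k * cd k (cdb j h) x := by
    rw [Finset.sum_congr rfl fun k _ => h1 k]
    simp only [Finset.sum_add_distrib]
    have h3 : ∑ k, ∑ j, cdb j h x * cd k (fun y => ((H y).det.re : ℂ) * (H y)⁻¹ j k) x = 0 := by
      rw [Finset.sum_comm]
      refine Finset.sum_eq_zero fun j _ => ?_
      rw [← Finset.mul_sum, hdiv x hx j, mul_zero]
    rw [h3, add_zero, Finset.mul_sum]
    refine Finset.sum_congr rfl fun k _ => ?_
    rw [Finset.mul_sum]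
    exact Finset.sum_congr rfl fun j _ => by ring
  unfold boxO
  rw [h2, ← mul_assoc, inv_mul_cancel₀ (by exact_mod_cast (hWp x hx).ne'), one_mul]

theorem trL_eq {n : ℕ} (H : Cn n → Matrix (Fin n) (Fin n) ℂ) (f : Cn n → ℝ) (x : Cn n) :
    trL H f x = ∑ k, ∑ j, (H x)⁻¹ j k * cd k (cdb j (fun y => (f y : ℂ))) x := by
  unfold trL
  rw [Finset.sum_comm]
  simp only [Matrix.trace, Matrix.diag, Matrix.mul_apply, LM, Matrix.of_apply]

/-! ## Invariant functions -/

theorem arr_mem {n : ℕ} {T : Set (Cn n)} {G : Type u} [Group G] {R : G → Cn n → Cn n → Prop}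
    (hE : Et T R) {U : Set (Cn n)} {τ : Cn n → Cn n} (h : Arr R U τ) {x : Cn n} (hx : x ∈ U) :
    x ∈ T ∧ τ x ∈ T := by
  obtain ⟨γ, hγ⟩ := h.2.2
  exact hE.mem _ _ _ (hγ x hx)

theorem sec_of_inv {n : ℕ} {T : Set (Cn n)} {G : Type u} [Group G]
    {R : G → Cn n → Cn n → Prop} {φ : Cn n → ℝ} (hφ : InvF T R φ) :
    Sec T R 0 (fun x => (φ x : ℂ)) := by
  refine ⟨Complex.ofRealCLM.contDiff.comp_contDiffOn hφ.1, fun U τ h x hx => ?_⟩
  obtain ⟨γ, hγ⟩ := h.2.2
  beta_reduce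
  rw [hφ.2 γ _ _ (hγ x hx), pow_zero, mul_one]

theorem sec_inv {n : ℕ} (hARRB : S_ARRB.{u}) {T : Set (Cn n)} {G : Type u} [Group G]
    {R : G → Cn n → Cn n → Prop} (hE : Et T R) {h : Cn n → ℂ} (hh : Sec T R 0 h)
    (γ : G) (x y : Cn n) (hxy : R γ x y) : h y = h x := by
  obtain ⟨U, τ, σ, hxU, hUT, hL, hτ, -⟩ := (hARRB T R hE).1 γ x y hxy
  have := hh.2 U τ ⟨hL.1, hL.2.1, γ, hL.2.2⟩ x hxU
  rw [pow_zero, mul_one, hτ] at this
  exact this.symm

theorem inv_re {n : ℕ} (hARRB : S_ARRB.{u}) {T : Set (Cn n)} {G : Type u} [Group G]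
    {R : G → Cn n → Cn n → Prop} (hE : Et T R) {h : Cn n → ℂ} (hh : Sec T R 0 h) :
    InvF T R (fun x => (h x).re) ∧ InvF T R (fun x => (h x).im) := by
  refine ⟨⟨Complex.reCLM.contDiff.comp_contDiffOn hh.1, fun γ x y hxy => ?_⟩,
    ⟨Complex.imCLM.contDiff.comp_contDiffOn hh.1, fun γ x y hxy => ?_⟩⟩
  · simp only [sec_inv hARRB hE hh γ x y hxy]
  · simp only [sec_inv hARRB hE hh γ x y hxy]

theorem dinv_of_inv {n : ℕ} {T : Set (Cn n)} {G : Type u} [Group G]
    {R : G → Cn n → Cn n → Prop} {φ : Cn n → ℝ} (hφ : InvF T R φ) : DInv R φ := by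
  intro U τ h x hx
  obtain ⟨γ, hγ⟩ := h.2.2
  apply Filter.EventuallyEq.fderiv_eq
  filter_upwards [h.1.mem_nhds hx] with y hy
  exact hφ.2 γ _ _ (hγ y hy)

theorem dinv_lin {n : ℕ} {T : Set (Cn n)} {G : Type u} [Group G]
    {R : G → Cn n → Cn n → Prop} (hE : Et T R) {f g : Cn n → ℝ} (hf : ContDiffOn ℝ ∞ f T)
    (hg : ContDiffOn ℝ ∞ g T) (hfD : DInv R f) (hgD : DInv R g) (c : ℝ) :
    DInv R (fun x => f x + c * g x) := by
  have hd : ∀ {u : Cn n → ℝ}, ContDiffOn ℝ ∞ u T → ∀ y ∈ T, DifferentiableAt ℝ u y := by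
    intro u hu y hy
    exact (hu.differentiableOn (by simp)).differentiableAt (hE.isOpen.mem_nhds hy)
  intro U τ h x hx
  obtain ⟨hxT, hτT⟩ := arr_mem hE h hx
  have hτ : DifferentiableAt ℝ τ x :=
    ((h.2.1 x hx).differentiableAt (h.1.mem_nhds hx)).restrictScalars ℝ
  have e1 : DifferentiableAt ℝ (fun y => f (τ y)) x := (hd hf _ hτT).comp x hτ
  have e2 : DifferentiableAt ℝ (fun y => g (τ y)) x := (hd hg _ hτT).comp x hτ
  rw [fderiv_fun_add e1 (e2.const_mul c), fderiv_const_mul e2, hfD U τ h x hx, hgD U τ h x hx,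
    fderiv_fun_add (hd hf _ hxT) ((hd hg _ hxT).const_mul c), fderiv_const_mul (hd hg _ hxT)]

theorem inv_lin {n : ℕ} {T : Set (Cn n)} {G : Type u} [Group G]
    {R : G → Cn n → Cn n → Prop} {f g : Cn n → ℝ} (hf : InvF T R f) (hg : InvF T R g) (c : ℝ) :
    InvF T R (fun x => f x + c * g x) := by
  refine ⟨hf.1.add (contDiffOn_const.mul hg.1), fun γ x y hxy => ?_⟩
  beta_reduce
  rw [hf.2 γ x y hxy, hg.2 γ x y hxy]

theorem inv_const {n : ℕ} {T : Set (Cn n)} {G : Type u} [Group G]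
    {R : G → Cn n → Cn n → Prop} (c : ℝ) : InvF T R (fun _ => c) :=
  ⟨contDiffOn_const, fun _ _ _ _ => rfl⟩

/-- The data that all steps share. -/
structure Ctx {n : ℕ} (T : Set (Cn n)) {G : Type u} [Group G] (R : G → Cn n → Cn n → Prop)
    (H : Cn n → Matrix (Fin n) (Fin n) ℂ) (κ : Cn n → ℝ) : Prop where
  ket : KEt T R H
  pu : IsPUE T R κ
  Wp : ∀ x ∈ T, 0 < (H x).det.re
  Ws : ContDiffOn ℝ ∞ (fun x => (H x).det.re) T
  Hs : ∀ j k, ContDiffOn ℝ ∞ (fun x => (H x)⁻¹ j k) T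
  div : ∀ x ∈ T, ∀ j, ∑ k, cd k (fun y => ((H y).det.re : ℂ) * (H y)⁻¹ j k) x = 0
  wt : Wt T R 0 (fun x => (H x).det.re)

theorem exists_ctx (hDETI : S_DETI.{u}) (hPUE : S_PUE.{u}) {n : ℕ} {T : Set (Cn n)} {G : Type u}
    [Group G] {R : G → Cn n → Cn n → Prop} {H : Cn n → Matrix (Fin n) (Fin n) ℂ}
    (hK : KEt T R H) : ∃ κ, Ctx T R H κ := by
  obtain ⟨κ, hκ⟩ := hPUE T R hK.et
  obtain ⟨hD1, hWs, hHs, -, hDtr, hDdiv⟩ := hDETI T R H hK
  refine ⟨κ, hK, hκ, fun x hx => (hD1 x hx).2.1, hWs, hHs, hDdiv,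
    ⟨fun x hx => (hD1 x hx).2.1, hWs, fun U τ h x hx => ?_⟩⟩
  have := (hDtr U τ h x hx).1
  simp only [mul_zero, pow_zero, mul_one]
  exact this.symm

section ctx

variable {n : ℕ} {T : Set (Cn n)} {G : Type u} [Group G] {R : G → Cn n → Cn n → Prop}
  {H : Cn n → Matrix (Fin n) (Fin n) ℂ} {κ : Cn n → ℝ}

theorem Ctx.isOpen (hC : Ctx T R H κ) : IsOpen T := hC.ket.et.isOpen

theorem Ctx.int (hC : Ctx T R H κ) {F : Cn n → ℝ} (hF : ContinuousOn F T) :
    IntegrableOn (fun x => κ x * (H x).det.re * F x) T := by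
  have := intOn hC.isOpen hC.pu.test (hC.Ws.continuousOn.mul hF)
  refine this.congr_fun (fun x _ => ?_) hC.isOpen.measurableSet
  simp only [mul_assoc, Pi.mul_apply]

theorem Ctx.nonneg (hC : Ctx T R H κ) : ∀ᵐ x ∂(volume.restrict T), 0 ≤ κ x * (H x).det.re := by
  filter_upwards [ae_restrict_mem hC.isOpen.measurableSet] with x hx
  exact mul_nonneg (hC.pu.nonneg x) (hC.Wp x hx).le

theorem Ctx.mass_pos (hC : Ctx T R H κ) : 0 < ∫ x in T, κ x * (H x).det.re := by
  have hP := Pool.Agent.Helper70.Lin.testF_mul hC.isOpen hC.pu.test hC.Ws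
  have h0 : ∀ x, 0 ≤ κ x * (H x).det.re := by
    intro x
    by_cases hx : x ∈ T
    · exact mul_nonneg (hC.pu.nonneg x) (hC.Wp x hx).le
    · rw [image_eq_zero_of_notMem_tsupport fun h => hx (hC.pu.test.2.2 h), zero_mul]
  have h1 : ∃ x, κ x * (H x).det.re ≠ 0 := by
    by_contra hcon
    push Not at hcon
    obtain ⟨x, hx⟩ := hC.ket.et.nonempty
    have hz : ∀ y, κ y = 0 := by
      intro y
      by_cases hy : y ∈ T
      · exact (mul_eq_zero.1 (hcon y)).resolve_right (hC.Wp y hy).ne'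
      · exact image_eq_zero_of_notMem_tsupport fun h => hy (hC.pu.test.2.2 h)
    have := hC.pu.sum x hx
    simp [AS, hz] at this
  obtain ⟨x, hx⟩ := h1
  have h2 := hP.1.continuous.integral_pos_of_hasCompactSupport_nonneg_nonzero
    (μ := (volume : Measure (Cn n))) hP.2.1 h0 hx
  rwa [setIntegral_eq_integral_of_forall_compl_eq_zero]
  intro y hy
  exact image_eq_zero_of_notMem_tsupport (f := fun x => κ x * (H x).det.re)
    fun h => hy (hP.2.2 h)

theorem Ctx.cs (hC : Ctx T R H κ) {f g : Cn n → ℝ} (hf : ContinuousOn f T)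
    (hg : ContinuousOn g T) : (∫ x in T, κ x * (H x).det.re * (f x * g x)) ^ 2 ≤
      (∫ x in T, κ x * (H x).det.re * f x ^ 2) * ∫ x in T, κ x * (H x).det.re * g x ^ 2 :=
  cs_weight _ _ f g hC.nonneg (hC.int (hf.pow 2)) (hC.int (hg.pow 2)) (hC.int (hf.mul hg))

/-- The real part of the operator. -/
theorem Ctx.boxO_re (hC : Ctx T R H κ) (hWIRT : S_WIRT) (hARRB : S_ARRB.{u})
    (hLMID : S_LMID.{u}) {h : Cn n → ℂ} (hh : Sec T R 0 h) {x : Cn n} (hx : x ∈ T) :
    (boxO H (fun x => (H x).det.re) h x).re = - (trL H (fun y => (h y).re) x).re := by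
  obtain ⟨h1, h2⟩ := inv_re hARRB hC.ket.et hh
  have him := (hLMID T R H hC.ket κ hC.pu _ h2.1 (dinv_of_inv h2)).1 x hx
  have hsm : ∀ {u : Cn n → ℝ}, ContDiffOn ℝ ∞ u T → ContDiffOn ℝ ∞ (fun y => (u y : ℂ)) T :=
    fun hu => Complex.ofRealCLM.contDiff.comp_contDiffOn hu
  rw [boxO_eq hWIRT hC.isOpen H hC.Hs hC.Ws hC.Wp hC.div hh.1 hx]
  have e : ∑ k, ∑ j, (H x)⁻¹ j k * cd k (cdb j h) x =
      trL H (fun y => (h y).re) x + I * trL H (fun y => (h y).im) x := by
    rw [trL_eq, trL_eq, Finset.mul_sum, ← Finset.sum_add_distrib]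
    refine Finset.sum_congr rfl fun k _ => ?_
    rw [Finset.mul_sum, ← Finset.sum_add_distrib]
    refine Finset.sum_congr rfl fun j _ => ?_
    have e2 := cdcdb_lin hWIRT hC.isOpen (hsm h1.1) (hsm h2.1) I k j hx
    have e3 : (fun y => ((h y).re : ℂ) + I * ((h y).im : ℂ)) = h := by
      ext y
      rw [mul_comm I]
      exact re_add_im (h y)
    rw [e3] at e2
    rw [e2]
    ring
  rw [e]
  simp only [neg_re, add_re, mul_re, I_re, I_im, zero_mul, one_mul, him, sub_zero, add_zero]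

/-- Approximate solutions of the Poisson equation. -/
theorem Ctx.stepA (hC : Ctx T R H κ) (hWIRT : S_WIRT) (hARRB : S_ARRB.{u})
    (hLMID : S_LMID.{u}) (hBOX : S_BOX.{u}) (hPROJ : S_PROJ.{u}) (hCONI : S_CONI.{u})
    {v : Cn n → ℝ} (hv : ContDiffOn ℝ ∞ v T) (hvD : DInv R v) :
    ∃ φ : ℕ → Cn n → ℝ, (∀ j, InvF T R (φ j)) ∧
      (∀ j, ∫ x in T, κ x * (H x).det.re * φ j x = 0) ∧
      Tendsto (fun j => ∫ x in T, κ x * (H x).det.re *
        (trL H (fun y => v y + (-1) * φ j y) x).re ^ 2) atTop (𝓝 0) := by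
  set W : Cn n → ℝ := fun x => (H x).det.re with hW
  obtain ⟨-, hρ, hρ0, -⟩ := hLMID T R H hC.ket κ hC.pu v hv hvD
  obtain ⟨g, h, hg, hgh, hh, hlim⟩ := hPROJ T R H hC.ket κ hC.pu 0 W hC.wt _ (sec_of_inv hρ)
  obtain ⟨a, ha⟩ := hCONI T R hC.ket.et g hg hgh
  have hu : ∀ j, InvF T R (fun x => (h j x).re) := fun j => (inv_re hARRB hC.ket.et (hh j)).1
  have hub : ∀ j, Sec T R 0 (boxO H W (h j)) := fun j =>
    (hBOX T R H hC.ket κ hC.pu 0 W hC.wt (h j) (h j) (hh j) (hh j)).1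
  have hL : ∀ j, InvF T R (fun x => (trL H (fun y => (h j y).re) x).re) ∧
      ∫ x in T, κ x * (H x).det.re * (trL H (fun y => (h j y).re) x).re = 0 := by
    intro j
    obtain ⟨-, h1, h2, -⟩ := hLMID T R H hC.ket κ hC.pu _ (hu j).1 (dinv_of_inv (hu j))
    exact ⟨h1, h2⟩
  -- the real parts
  set r : ℕ → Cn n → ℝ := fun j x =>
    (trL H v x).re - a.re + (trL H (fun y => (h j y).re) x).re with hr
  have hrc : ∀ j, ContinuousOn (r j) T := fun j =>
    (hρ.1.continuousOn.sub continuousOn_const).add (hL j).1.1.continuousOn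
  set X : ℕ → ℝ := fun j => nsE T κ W (fun x => ((trL H v x).re : ℂ) - g x -
    boxO H W (h j) x) with hX
  have hrX : ∀ j, ∫ x in T, κ x * W x * r j x ^ 2 ≤ X j := by
    intro j
    refine integral_mono_ae (hC.int ((hrc j).pow 2)) ?_ ?_
    · have hcont : ContinuousOn (fun x => ‖((trL H v x).re : ℂ) - g x - boxO H W (h j) x‖ ^ 2)
          T := ((((Complex.continuous_ofReal.comp_continuousOn hρ.1.continuousOn).sub
            hg.1.continuousOn).sub (hub j).1.continuousOn).norm).pow 2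
      exact hC.int hcont
    · filter_upwards [ae_restrict_mem hC.isOpen.measurableSet, hC.nonneg] with x hx hx0
      refine mul_le_mul_of_nonneg_left ?_ hx0
      have e : r j x = (((trL H v x).re : ℂ) - g x - boxO H W (h j) x).re := by
        rw [sub_re, sub_re, ofReal_re, ha x hx, hC.boxO_re hWIRT hARRB hLMID (hh j) hx]
        simp only [hr]
        ring
      rw [e, ← sq_abs]
      exact pow_le_pow_left₀ (abs_nonneg _) (Complex.abs_re_le_norm _) 2
  have hr0 : Tendsto (fun j => ∫ x in T, κ x * W x * r j x ^ 2) atTop (𝓝 0) := by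
    refine squeeze_zero (fun j => ?_) hrX hlim
    refine integral_nonneg_of_ae ?_
    filter_upwards [hC.nonneg] with x hx
    exact mul_nonneg hx (sq_nonneg _)
  set m := ∫ x in T, κ x * (H x).det.re with hm
  have hmpos : 0 < m := hC.mass_pos
  have hmean : ∀ j, ∫ x in T, κ x * W x * (r j x * 1) = - (a.re * m) := by
    intro j
    have e : (fun x => κ x * W x * (r j x * 1)) = fun x =>
        κ x * (H x).det.re * (trL H v x).re + (κ x * (H x).det.re * (- a.re) +
          κ x * (H x).det.re * (trL H (fun y => (h j y).re) x).re) := by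
      ext x
      simp only [hr, hW]
      ring
    have i1 := hC.int hρ.1.continuousOn
    have i2 := hC.int (F := fun _ => - a.re) continuousOn_const
    have i3 := hC.int (hL j).1.1.continuousOn
    have i4 : IntegrableOn (fun x => κ x * (H x).det.re * (- a.re) +
        κ x * (H x).det.re * (trL H (fun y => (h j y).re) x).re) T := i2.add i3
    rw [e, integral_add i1 i4, integral_add i2 i3, hρ0, (hL j).2, integral_mul_const]
    ring
  have har : a.re = 0 := by
    have h1 : ∀ j, (a.re * m) ^ 2 ≤ (∫ x in T, κ x * W x * r j x ^ 2) * m := by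
      intro j
      have := hC.cs (hrc j) (g := fun _ => (1 : ℝ)) continuousOn_const
      rw [hmean j] at this
      simpa [neg_sq] using this
    have h2 : (a.re * m) ^ 2 ≤ 0 := by
      have := ge_of_tendsto' (hr0.mul_const m) h1
      simpa using this
    have h3 : a.re * m = 0 := by
      have := sq_nonneg (a.re * m)
      exact pow_eq_zero_iff (two_ne_zero) |>.1 (le_antisymm h2 this)
    exact (mul_eq_zero.1 h3).resolve_right hmpos.ne'
  refine ⟨fun j x => (∫ x in T, κ x * (H x).det.re * (h j x).re) / m + (-1) * (h j x).re,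
    fun j => inv_lin (inv_const _) (hu j) _, fun j => ?_, ?_⟩
  · have e : (fun x => κ x * (H x).det.re * ((∫ x in T, κ x * (H x).det.re * (h j x).re) / m +
        (-1) * (h j x).re)) = fun x => κ x * (H x).det.re *
          ((∫ x in T, κ x * (H x).det.re * (h j x).re) / m) -
          κ x * (H x).det.re * (h j x).re := by
      ext x
      ring
    rw [e, integral_sub (hC.int (F := fun _ => _) continuousOn_const)
      (hC.int (hu j).1.continuousOn), integral_mul_const]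
    rw [mul_div_cancel₀ _ hmpos.ne', sub_self]
  · refine hr0.congr fun j => ?_
    refine setIntegral_congr_fun hC.isOpen.measurableSet fun x hx => ?_
    simp only [hW]
    congr 2
    have hs : ContDiffOn ℝ ∞ (fun y => (∫ x in T, κ x * (H x).det.re * (h j x).re) / m +
      (-1) * (h j y).re) T := (inv_lin (inv_const _) (hu j) _).1
    rw [trL_lin hWIRT hC.isOpen H hv hs (-1) hx, trL_lin hWIRT hC.isOpen H
      (f := fun _ => (∫ x in T, κ x * (H x).det.re * (h j x).re) / m) contDiffOn_const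
      (hu j).1 (-1) hx, trL_const]
    simp only [hr, har, zero_add, sub_zero, add_re, mul_re, ofReal_re, ofReal_im, zero_mul]
    ring

/-- The Dirichlet form of an invariant function. -/
theorem Ctx.dir (hC : Ctx T R H κ) (hWIRT : S_WIRT) (hARRB : S_ARRB.{u})
    (hLMID : S_LMID.{u}) (hBOX : S_BOX.{u}) {φ : Cn n → ℝ} (hφ : InvF T R φ) :
    (dipE T κ (fun x => (H x).det.re) H (fun x => (φ x : ℂ)) fun x => (φ x : ℂ)).re =
      - ∫ x in T, κ x * (H x).det.re * ((trL H φ x).re * φ x) := by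
  have hs := sec_of_inv hφ
  obtain ⟨h1, h2, -⟩ := hBOX T R H hC.ket κ hC.pu 0 _ hC.wt _ _ hs hs
  rw [← h2]
  unfold ipE
  have hcont : ContinuousOn (fun x => boxO H (fun x => (H x).det.re) (fun x => (φ x : ℂ)) x *
      conj ((φ x : ℝ) : ℂ)) T := h1.1.continuousOn.mul
    (Complex.continuous_conj.comp_continuousOn hs.1.continuousOn)
  have hint : IntegrableOn (fun x => ((κ x * (H x).det.re : ℝ) : ℂ) *
      (boxO H (fun x => (H x).det.re) (fun x => (φ x : ℂ)) x * conj ((φ x : ℝ) : ℂ))) T := by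
    have hw : ContinuousOn (fun x => ((κ x * (H x).det.re : ℝ) : ℂ)) T :=
      Complex.continuous_ofReal.comp_continuousOn
        (hC.pu.test.1.continuous.continuousOn.mul hC.Ws.continuousOn)
    have h1 := ((hw.mul hcont).mono hC.pu.test.2.2).integrableOn_compact
      (μ := (volume : Measure (Cn n))) hC.pu.test.2.1
    refine h1.of_forall_sdiff_eq_zero hC.isOpen.measurableSet fun x hx => ?_
    simp only [Pi.mul_apply]
    rw [image_eq_zero_of_notMem_tsupport hx.2]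
    simp
  have := (Complex.reCLM.integral_comp_comm hint)
  simp only [Complex.reCLM_apply] at this
  rw [← this, ← integral_neg]
  refine setIntegral_congr_fun hC.isOpen.measurableSet fun x hx => ?_
  simp only [re_ofReal_mul, Complex.conj_ofReal]
  rw [mul_comm (boxO _ _ _ _), re_ofReal_mul, hC.boxO_re hWIRT hARRB hLMID hs hx]
  simp only [ofReal_re]
  ring

/-- The Poincaré estimate. -/
theorem Ctx.poin (hC : Ctx T R H κ) (hWIRT : S_WIRT) (hARRB : S_ARRB.{u})
    (hLMID : S_LMID.{u}) (hBOX : S_BOX.{u}) (hPOIN : S_POIN.{u}) (hL2C : S_L2C.{u})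
    (C : Set (Cn n)) (hCT : C ⊆ T) (hCc : IsCompact C) :
    ∃ B : ℝ, 0 ≤ B ∧ ∀ φ : Cn n → ℝ, InvF T R φ →
      ∫ x in T, κ x * (H x).det.re * φ x = 0 → ∫ x in C, φ x ^ 2 ≤
        B * ∫ x in T, κ x * (H x).det.re * (trL H φ x).re ^ 2 := by
  obtain ⟨K, hK⟩ := hPOIN T R H hC.ket κ hC.pu
  obtain ⟨B, hB⟩ := hL2C T R H hC.ket κ hC.pu 0 _ hC.wt C hCT hCc
  refine ⟨|B| * K ^ 2, by positivity, fun φ hφ h0 => ?_⟩
  set N := ∫ x in T, κ x * (H x).det.re * φ x ^ 2 with hN
  set P := ∫ x in T, κ x * (H x).det.re * (trL H φ x).re ^ 2 with hP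
  have hLc : ContinuousOn (fun x => (trL H φ x).re) T :=
    (hLMID T R H hC.ket κ hC.pu φ hφ.1 (dinv_of_inv hφ)).2.1.1.continuousOn
  have hnn : ∀ F : Cn n → ℝ, 0 ≤ ∫ x in T, κ x * (H x).det.re * F x ^ 2 := by
    intro F
    refine integral_nonneg_of_ae ?_
    filter_upwards [hC.nonneg] with x hx
    exact mul_nonneg hx (sq_nonneg _)
  have hN0 : 0 ≤ N := hnn _
  have hP0 : 0 ≤ P := hnn fun x => (trL H φ x).re
  have h1 := hK φ hφ h0
  rw [hC.dir hWIRT hARRB hLMID hBOX hφ] at h1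
  have h2 := hC.cs hLc hφ.1.continuousOn
  set D := ∫ x in T, κ x * (H x).det.re * ((trL H φ x).re * φ x) with hD
  have h3 : N ≤ K ^ 2 * P := by
    rcases hN0.eq_or_lt with h | h
    · rw [← h]
      positivity
    · have h4 : N ^ 2 ≤ K ^ 2 * D ^ 2 := by
        have : N ^ 2 ≤ (K * -D) ^ 2 := pow_le_pow_left₀ hN0 h1 2
        calc N ^ 2 ≤ (K * -D) ^ 2 := this
          _ = K ^ 2 * D ^ 2 := by ring
      have h5 : N * N ≤ (K ^ 2 * P) * N := by
        calc N * N = N ^ 2 := by ring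
          _ ≤ K ^ 2 * D ^ 2 := h4
          _ ≤ K ^ 2 * (P * N) := mul_le_mul_of_nonneg_left h2 (sq_nonneg _)
          _ = (K ^ 2 * P) * N := by ring
      exact le_of_mul_le_mul_right h5 h
  have h6 := (hB _ (sec_of_inv hφ)).1
  have h7 : nsE T κ (fun x => (H x).det.re) (fun x => (φ x : ℂ)) = N := by
    unfold nsE
    rw [hN]
    simp only [Complex.norm_real, Real.norm_eq_abs, sq_abs]
  have h8 : ∫ x in C, ‖((φ x : ℝ) : ℂ)‖ ^ 2 = ∫ x in C, φ x ^ 2 := by
    simp only [Complex.norm_real, Real.norm_eq_abs, sq_abs]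
  rw [h7, h8] at h6
  calc ∫ x in C, φ x ^ 2 ≤ B * N := h6
    _ ≤ |B| * N := mul_le_mul_of_nonneg_right (le_abs_self B) hN0
    _ ≤ |B| * (K ^ 2 * P) := mul_le_mul_of_nonneg_left h3 (abs_nonneg _)
    _ = |B| * K ^ 2 * P := by ring

/-- The limit of the approximate solutions. -/
theorem Ctx.stepB (hC : Ctx T R H κ) (hWIRT : S_WIRT) (hARRB : S_ARRB.{u})
    (hLMID : S_LMID.{u}) (hBOX : S_BOX.{u}) (hPOIN : S_POIN.{u}) (hL2C : S_L2C.{u})
    (hL2LIM : S_L2LIM) {v : Cn n → ℝ} (hv : ContDiffOn ℝ ∞ v T) (hvD : DInv R v)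
    (φ : ℕ → Cn n → ℝ) (hφ : ∀ j, InvF T R (φ j))
    (hφ0 : ∀ j, ∫ x in T, κ x * (H x).det.re * φ j x = 0)
    (hlim : Tendsto (fun j => ∫ x in T, κ x * (H x).det.re *
        (trL H (fun y => v y + (-1) * φ j y) x).re ^ 2) atTop (𝓝 0)) :
    ∃ f : Cn n → ℝ, ∀ C ⊆ T, IsCompact C → MemLp f 2 (volume.restrict C) ∧
      Tendsto (fun j => ∫ x in C, (φ j x - f x) ^ 2) atTop (𝓝 0) := by
  set p : ℕ → Cn n → ℝ := fun j x => (trL H (fun y => v y + (-1) * φ j y) x).re with hp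
  have hus : ∀ j, ContDiffOn ℝ ∞ (fun y => v y + (-1) * φ j y) T := fun j =>
    hv.add (contDiffOn_const.mul (hφ j).1)
  have hpc : ∀ j, ContinuousOn (p j) T := fun j =>
    (hLMID T R H hC.ket κ hC.pu _ (hus j)
      (dinv_lin hC.ket.et hv (hφ j).1 hvD (dinv_of_inv (hφ j)) _)).2.1.1.continuousOn
  have hnn : ∀ F : Cn n → ℝ, 0 ≤ ∫ x in T, κ x * (H x).det.re * F x ^ 2 := by
    intro F
    refine integral_nonneg_of_ae ?_
    filter_upwards [hC.nonneg] with x hx
    exact mul_nonneg hx (sq_nonneg _)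
  have hdiff : ∀ i j, InvF T R (fun x => φ i x + (-1) * φ j x) := fun i j =>
    inv_lin (hφ i) (hφ j) _
  have hdiff0 : ∀ i j, ∫ x in T, κ x * (H x).det.re * (φ i x + (-1) * φ j x) = 0 := by
    intro i j
    have e : (fun x => κ x * (H x).det.re * (φ i x + (-1) * φ j x)) = fun x =>
        κ x * (H x).det.re * φ i x - κ x * (H x).det.re * φ j x := by
      ext x; ring
    rw [e, integral_sub (hC.int (hφ i).1.continuousOn) (hC.int (hφ j).1.continuousOn), hφ0, hφ0,
      sub_self]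
  have hbd : ∀ i j, ∫ x in T, κ x * (H x).det.re *
      (trL H (fun x => φ i x + (-1) * φ j x) x).re ^ 2 ≤
      2 * (∫ x in T, κ x * (H x).det.re * p i x ^ 2) +
        2 * ∫ x in T, κ x * (H x).det.re * p j x ^ 2 := by
    intro i j
    have i1 : IntegrableOn (fun x => 2 * (κ x * (H x).det.re * p i x ^ 2)) T :=
      (hC.int ((hpc i).pow 2)).const_mul 2
    have i2 : IntegrableOn (fun x => 2 * (κ x * (H x).det.re * p j x ^ 2)) T :=
      (hC.int ((hpc j).pow 2)).const_mul 2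
    rw [← integral_const_mul, ← integral_const_mul, ← integral_add i1 i2]
    have hLc : ContinuousOn (fun x => (trL H (fun x => φ i x + (-1) * φ j x) x).re) T :=
      (hLMID T R H hC.ket κ hC.pu _ (hdiff i j).1 (dinv_of_inv (hdiff i j))).2.1.1.continuousOn
    refine integral_mono_ae (hC.int (hLc.pow 2)) (i1.add i2) ?_
    filter_upwards [ae_restrict_mem hC.isOpen.measurableSet, hC.nonneg] with x hx hx0
    have e : (trL H (fun x => φ i x + (-1) * φ j x) x).re = p j x - p i x := by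
      simp only [hp]
      rw [trL_lin hWIRT hC.isOpen H (hφ i).1 (hφ j).1 (-1) hx,
        trL_lin hWIRT hC.isOpen H hv (hφ i).1 (-1) hx,
        trL_lin hWIRT hC.isOpen H hv (hφ j).1 (-1) hx]
      simp only [add_re, mul_re, ofReal_re, ofReal_im, zero_mul]
      ring
    rw [e]
    have h2 : (p j x - p i x) ^ 2 ≤ 2 * p i x ^ 2 + 2 * p j x ^ 2 := by
      nlinarith [sq_nonneg (p j x + p i x)]
    calc κ x * (H x).det.re * (p j x - p i x) ^ 2
        ≤ κ x * (H x).det.re * (2 * p i x ^ 2 + 2 * p j x ^ 2) :=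
          mul_le_mul_of_nonneg_left h2 hx0
      _ = 2 * (κ x * (H x).det.re * p i x ^ 2) + 2 * (κ x * (H x).det.re * p j x ^ 2) := by ring
  obtain ⟨f, hf⟩ := hL2LIM T hC.isOpen (fun j x => (φ j x : ℂ))
    (fun j => Complex.continuous_ofReal.comp_continuousOn (hφ j).1.continuousOn) (by
      intro C hCT hCc ε hε
      obtain ⟨B, hB0, hB⟩ := hC.poin hWIRT hARRB hLMID hBOX hPOIN hL2C C hCT hCc
      have h1 : Tendsto (fun j => B * (4 * ∫ x in T, κ x * (H x).det.re * p j x ^ 2)) atTop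
          (𝓝 0) := by
        have := (hlim.const_mul 4).const_mul B
        simpa only [mul_zero] using this
      obtain ⟨J, hJ⟩ := eventually_atTop.1 (h1.eventually (ge_mem_nhds hε))
      refine ⟨J, fun i hi j hj => ?_⟩
      have e : ∀ x, ‖((φ i x : ℝ) : ℂ) - ((φ j x : ℝ) : ℂ)‖ ^ 2 = (φ i x + (-1) * φ j x) ^ 2 := by
        intro x
        rw [← ofReal_sub, Complex.norm_real, Real.norm_eq_abs, sq_abs]
        ring
      simp only [e]
      refine (hB _ (hdiff i j) (hdiff0 i j)).trans ?_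
      refine (mul_le_mul_of_nonneg_left (hbd i j) hB0).trans ?_
      have a1 := hJ i hi
      have a2 := hJ j hj
      linarith)
  refine ⟨fun x => (f x).re, fun C hCT hCc => ?_⟩
  obtain ⟨h1, h2⟩ := hf C hCT hCc
  have h3 : MemLp (fun x => (f x).re) 2 (volume.restrict C) := h1.re
  refine ⟨h3, ?_⟩
  have : IsFiniteMeasure (volume.restrict C : Measure (Cn n)) :=
    ⟨by simpa using hCc.measure_lt_top⟩
  have hφC : ∀ j, MemLp (φ j) 2 (volume.restrict C) := fun j =>
    memLp_cpt hCc ((hφ j).1.continuousOn.mono hCT)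
  refine squeeze_zero (fun j => integral_nonneg fun x => sq_nonneg _) (fun j => ?_) h2
  have i1 : Integrable (fun x => (φ j x - (f x).re) ^ 2) (volume.restrict C) :=
    ((hφC j).sub h3).integrable_sq
  have i2 : Integrable (fun x => ‖((φ j x : ℝ) : ℂ) - f x‖ ^ 2) (volume.restrict C) :=
    (((hφC j).ofReal (K := ℂ)).sub h1).integrable_norm_pow (by norm_num)
  refine integral_mono i1 i2 fun x => ?_
  have e : φ j x - (f x).re = (((φ j x : ℝ) : ℂ) - f x).re := by simp
  simp only [e]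
  rw [← sq_abs]
  exact pow_le_pow_left₀ (abs_nonneg _) (Complex.abs_re_le_norm _) 2

end ctx

/-! ## The weak equation -/

theorem lev_smul {n : ℕ} {T : Set (Cn n)} {ψ : Cn n → ℝ} (hψ : TestF T ψ) (c : ℝ) (x e : Cn n) :
    lev ψ x (c • e) = c ^ 2 * lev ψ x e := by
  have h : ∀ e : Cn n, hess ψ x (c • e) (c • e) = c ^ 2 * hess ψ x e e := by
    intro e
    unfold hess
    have h1 : (fun y => fderiv ℝ ψ y (c • e)) = fun y => c * fderiv ℝ ψ y e := by
      ext y
      rw [map_smul, smul_eq_mul]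
    have h2 : DifferentiableAt ℝ (fun y => fderiv ℝ ψ y e) x :=
      ((Pool.Agent.Helper70.Lin.testF_fderiv hψ e).1.differentiable (by simp)) x
    rw [h1, fderiv_const_mul h2, map_smul]
    simp only [smul_apply, smul_eq_mul]
    ring
  unfold lev
  have h3 : I • c • e = c • I • e := by rw [smul_comm]
  rw [h3, h, h]
  ring

theorem testF_lev {n : ℕ} {T : Set (Cn n)} {ψ : Cn n → ℝ} (hψ : TestF T ψ) (e : Cn n) :
    Continuous (fun x => lev ψ x e) ∧ ∀ x ∉ tsupport ψ, lev ψ x e = 0 := by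
  have h : ∀ e, TestF (tsupport ψ) (fun x => hess ψ x e e) := fun e =>
    Pool.Agent.Helper70.Lin.testF_fderiv
      (Pool.Agent.Helper70.Lin.testF_fderiv (M := tsupport ψ) ⟨hψ.1, hψ.2.1, subset_rfl⟩ e) e
  refine ⟨(h e).1.continuous.add (h (I • e)).1.continuous, fun x hx => ?_⟩
  unfold lev
  have h0 : ∀ e, hess ψ x e e = 0 := fun e =>
    image_eq_zero_of_notMem_tsupport (f := fun x => hess ψ x e e) fun h' => hx ((h e).2.2 h')
  rw [h0, h0, add_zero]

theorem setInt_tsupp {n : ℕ} {T K : Set (Cn n)} (hKT : K ⊆ T) {F : Cn n → ℝ} (hF : ∀ x ∉ K, F x = 0) : ∫ x in T, F x = ∫ x in K, F x := by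
  rw [setIntegral_eq_integral_of_forall_compl_eq_zero (s := K) hF,
    setIntegral_eq_integral_of_forall_compl_eq_zero (s := T) fun x hx => hF x fun h => hx (hKT h)]

theorem cs_set {n : ℕ} {K : Set (Cn n)} {f g : Cn n → ℝ} (hf : MemLp f 2 (volume.restrict K))
    (hg : MemLp g 2 (volume.restrict K)) :
    (∫ x in K, f x * g x) ^ 2 ≤ (∫ x in K, f x ^ 2) * ∫ x in K, g x ^ 2 := by
  have h3 : Integrable (fun x => f x * g x) (volume.restrict K) := hf.integrable_mul hg
  have := cs_weight (volume.restrict K) (fun _ => 1) f g (Eventually.of_forall fun _ => zero_le_one)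
    (by simpa using hf.integrable_sq) (by simpa using hg.integrable_sq)
    (by simpa using h3)
  simpa using this

theorem Ctx.stepC {n : ℕ} {T : Set (Cn n)} {G : Type u} [Group G] {R : G → Cn n → Cn n → Prop}
    {H : Cn n → Matrix (Fin n) (Fin n) ℂ} {κ : Cn n → ℝ} (hC : Ctx T R H κ)
    (hLMID : S_LMID.{u}) (hLML2 : S_LML2.{u})
    {v : Cn n → ℝ} (hv : ContDiffOn ℝ ∞ v T) (hvD : DInv R v)
    (φ : ℕ → Cn n → ℝ) (hφ : ∀ j, InvF T R (φ j))
    (hlim : Tendsto (fun j => ∫ x in T, κ x * (H x).det.re *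
        (trL H (fun y => v y + (-1) * φ j y) x).re ^ 2) atTop (𝓝 0))
    (f : Cn n → ℝ) (hf : ∀ C ⊆ T, IsCompact C → MemLp f 2 (volume.restrict C) ∧
      Tendsto (fun j => ∫ x in C, (φ j x - f x) ^ 2) atTop (𝓝 0))
    (ψ : Cn n → ℝ) (hψ : TestF T ψ) (e : Cn n) :
    ∫ x in T, (v x - f x) * lev ψ x e = 0 := by
  have hT := hC.isOpen
  set K := tsupport ψ with hK
  have hKc : IsCompact K := hψ.2.1
  have hKT : K ⊆ T := hψ.2.2
  -- reduction to short vectors
  suffices hsh : ∀ e : Cn n, ‖e‖ ≤ 1 → ∫ x in T, (v x - f x) * lev ψ x e = 0 by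
    have hpos : 0 < ‖e‖ + 1 := by positivity
    have h1 := hsh ((‖e‖ + 1)⁻¹ • e) (by
      rw [norm_smul, Real.norm_eq_abs, abs_of_pos (inv_pos.2 hpos), inv_mul_le_iff₀ hpos]
      linarith)
    have h2 : ∀ x, (v x - f x) * lev ψ x ((‖e‖ + 1)⁻¹ • e) =
        ((‖e‖ + 1)⁻¹) ^ 2 * ((v x - f x) * lev ψ x e) := by
      intro x
      rw [lev_smul hψ]
      ring
    simp only [h2] at h1
    rw [integral_const_mul] at h1
    exact (mul_eq_zero.1 h1).resolve_left (pow_ne_zero _ (inv_ne_zero hpos.ne'))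
  intro e he
  obtain ⟨hLc, hL0⟩ := testF_lev hψ e
  obtain ⟨hf1, hf2⟩ := hf K hKT hKc
  have hus : ∀ j, ContDiffOn ℝ ∞ (fun y => v y + (-1) * φ j y) T := fun j =>
    hv.add (contDiffOn_const.mul (hφ j).1)
  have huD : ∀ j, DInv R (fun y => v y + (-1) * φ j y) := fun j =>
    dinv_lin hC.ket.et hv (hφ j).1 hvD (dinv_of_inv (hφ j)) _
  have hLm : MemLp (fun x => lev ψ x e) 2 (volume.restrict K) := memLp_cpt hKc hLc.continuousOn
  have hum : ∀ j, MemLp (fun y => v y + (-1) * φ j y) 2 (volume.restrict K) := fun j =>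
    memLp_cpt hKc ((hus j).continuousOn.mono hKT)
  have hdm : ∀ j, MemLp (fun y => φ j y - f y) 2 (volume.restrict K) := fun j =>
    (memLp_cpt hKc ((hφ j).1.continuousOn.mono hKT)).sub hf1
  -- first term
  have hA : Tendsto (fun j => ∫ x in K, (v x + (-1) * φ j x) * lev ψ x e) atTop (𝓝 0) := by
    obtain ⟨B, hB⟩ := hLML2 T R H hC.ket κ hC.pu K hKT hKc
    have hψm : MemLp ψ 2 (volume.restrict K) := memLp_cpt hKc hψ.1.continuous.continuousOn
    have hcl : ∀ j, ContinuousOn (fun x => lev (fun y => v y + (-1) * φ j y) x e) T := by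
      intro j
      have h1 : ∀ w, ContDiffOn ℝ ∞ (fun x => hess (fun y => v y + (-1) * φ j y) x w w) T :=
        fun w => Pool.Agent.Helper70.Lin.contDiffOn_fderiv hT
          (Pool.Agent.Helper70.Lin.contDiffOn_fderiv hT (hus j) w) w
      exact (h1 e).continuousOn.add (h1 (I • e)).continuousOn
    have hX : Tendsto (fun j => (∫ x in K, ψ x ^ 2) * (B * ∫ x in T, κ x * (H x).det.re *
        (trL H (fun y => v y + (-1) * φ j y) x).re ^ 2)) atTop (𝓝 0) := by
      simpa only [mul_zero] using (hlim.const_mul B).const_mul _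
    refine tendsto_zero_of_sq hX fun j => ?_
    have h1 : ∫ x in K, (v x + (-1) * φ j x) * lev ψ x e =
        ∫ x in K, ψ x * lev (fun y => v y + (-1) * φ j y) x e := by
      rw [← setInt_tsupp hKT fun x hx => by rw [hL0 x hx, mul_zero],
        ← setInt_tsupp hKT fun x hx => by
          rw [image_eq_zero_of_notMem_tsupport (f := ψ) hx, zero_mul]]
      exact Pool.Agent.Helper70.Lin.levibp T hT ψ _ hψ (hus j) e
    rw [h1]
    refine (cs_set hψm (memLp_cpt hKc ((hcl j).mono hKT))).trans ?_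
    refine mul_le_mul_of_nonneg_left ?_ (integral_nonneg fun x => sq_nonneg _)
    refine (hB _ (hus j) (huD j) e he).trans (le_of_eq ?_)
    rw [(hLMID T R H hC.ket κ hC.pu _ (hus j) (huD j)).2.2.2]
  -- second term
  have hBt : Tendsto (fun j => ∫ x in K, (φ j x - f x) * lev ψ x e) atTop (𝓝 0) := by
    have hX : Tendsto (fun j => (∫ x in K, (φ j x - f x) ^ 2) * ∫ x in K, lev ψ x e ^ 2) atTop
        (𝓝 0) := by
      simpa only [zero_mul] using hf2.mul_const _
    exact tendsto_zero_of_sq hX fun j => cs_set (hdm j) hLm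
  have hsum : ∀ j, ∫ x in T, (v x - f x) * lev ψ x e =
      (∫ x in K, (v x + (-1) * φ j x) * lev ψ x e) + ∫ x in K, (φ j x - f x) * lev ψ x e := by
    intro j
    have i1 : Integrable (fun x => (v x + (-1) * φ j x) * lev ψ x e) (volume.restrict K) :=
      (hum j).integrable_mul hLm
    have i2 : Integrable (fun x => (φ j x - f x) * lev ψ x e) (volume.restrict K) :=
      (hdm j).integrable_mul hLm
    rw [setInt_tsupp hKT fun x hx => by rw [hL0 x hx, mul_zero], ← integral_add i1 i2]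
    congr 1
    ext x
    ring
  have := (hA.add hBt).congr fun j => (hsum j).symm
  rw [add_zero] at this
  exact tendsto_nhds_unique tendsto_const_nhds this

/-! ## Invariance -/

theorem exists_ae_subseq {n : ℕ} {C : Set (Cn n)} {φ : ℕ → Cn n → ℝ} {f : Cn n → ℝ}
    (hφ : ∀ j, MemLp (φ j) 2 (volume.restrict C)) (hf : MemLp f 2 (volume.restrict C))
    (h : Tendsto (fun j => ∫ x in C, (φ j x - f x) ^ 2) atTop (𝓝 0)) :
    ∃ ns : ℕ → ℕ, ∀ᵐ x ∂(volume.restrict C), Tendsto (fun k => φ (ns k) x) atTop (𝓝 (f x)) := by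
  have hi : ∀ j, Integrable (fun x => (φ j x - f x) ^ 2) (volume.restrict C) := fun j =>
    ((hφ j).sub hf).integrable_sq
  have h1 : Tendsto (fun j => eLpNorm ((fun x => (φ j x - f x) ^ 2) - fun _ => (0 : ℝ)) 1
      (volume.restrict C)) atTop (𝓝 0) := by
    have e : ∀ j, eLpNorm ((fun x => (φ j x - f x) ^ 2) - fun _ => (0 : ℝ)) 1
        (volume.restrict C) = ENNReal.ofReal (∫ x in C, (φ j x - f x) ^ 2) := by
      intro j
      rw [eLpNorm_one_eq_lintegral_enorm, ofReal_integral_eq_lintegral_ofReal (hi j)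
        (Eventually.of_forall fun x => sq_nonneg _)]
      refine lintegral_congr fun x => ?_
      simp only [Pi.sub_apply, sub_zero]
      rw [Real.enorm_eq_ofReal (sq_nonneg _)]
    simp only [e]
    rw [← ENNReal.ofReal_zero]
    exact (ENNReal.continuous_ofReal.tendsto 0).comp h
  obtain ⟨ns, -, hns⟩ := (tendstoInMeasure_of_tendsto_eLpNorm one_ne_zero
    (fun j => (hi j).aestronglyMeasurable) aestronglyMeasurable_const h1).exists_seq_tendsto_ae
  refine ⟨ns, ?_⟩
  filter_upwards [hns] with x hx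
  have h2 : Tendsto (fun k => φ (ns k) x - f x) atTop (𝓝 0) :=
    tendsto_zero_of_sq hx fun k => le_rfl
  have := h2.add_const (f x)
  simpa using this

theorem inv_of_limit {n : ℕ} (hARRB : S_ARRB.{u}) {T : Set (Cn n)} {G : Type u} [Group G]
    {R : G → Cn n → Cn n → Prop} (hE : Et T R) (φ : ℕ → Cn n → ℝ) (hφ : ∀ j, InvF T R (φ j))
    (f : Cn n → ℝ) (hf : ∀ C ⊆ T, IsCompact C → MemLp f 2 (volume.restrict C) ∧
      Tendsto (fun j => ∫ x in C, (φ j x - f x) ^ 2) atTop (𝓝 0))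
    (u : Cn n → ℝ) (hu : ContDiffOn ℝ ∞ u T) (hfu : ∀ᵐ x ∂(volume.restrict T), f x = u x) :
    InvF T R u := by
  refine ⟨hu, fun γ x y hxy => ?_⟩
  obtain ⟨U, τ, σ, hxU, hUT, hL, hτ, hinj, hLσ, hστ⟩ := (hARRB T R hE).1 γ x y hxy
  obtain ⟨r, hr, hrU⟩ := nhds_basis_closedBall.mem_iff.1 (hL.1.mem_nhds hxU)
  set B := closedBall x r with hB
  have hτc : ContinuousOn τ U := hL.2.1.continuousOn
  have hBc : IsCompact B := isCompact_closedBall x r
  have hτB : IsCompact (τ '' B) := hBc.image_of_continuousOn (hτc.mono hrU)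
  have hτBT : τ '' B ⊆ T := by
    rintro _ ⟨z, hz, rfl⟩
    exact (hE.mem _ _ _ (hL.2.2 z (hrU hz))).2
  have hCT : B ∪ τ '' B ⊆ T := union_subset (hrU.trans hUT) hτBT
  have hCc : IsCompact (B ∪ τ '' B) := hBc.union hτB
  obtain ⟨hf1, hf2⟩ := hf _ hCT hCc
  obtain ⟨ns, hns⟩ := exists_ae_subseq (fun j => memLp_cpt hCc
    ((hφ j).1.continuousOn.mono hCT)) hf1 hf2
  have hfu' : ∀ᵐ x ∂(volume.restrict (B ∪ τ '' B)), f x = u x :=
    ae_restrict_of_ae_restrict_of_subset hCT hfu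
  have hgood : ∀ᵐ z ∂(volume.restrict (B ∪ τ '' B)),
      Tendsto (fun k => φ (ns k) z) atTop (𝓝 (u z)) := by
    filter_upwards [hns, hfu'] with z h1 h2
    rwa [← h2]
  rw [ae_restrict_iff' hCc.measurableSet] at hgood
  set N : Set (Cn n) := {z | ¬ (z ∈ B ∪ τ '' B → Tendsto (fun k => φ (ns k) z) atTop (𝓝 (u z)))}
    with hN
  have hN0 : volume N = 0 := hgood
  have hσd : DifferentiableOn ℝ σ (τ '' U) := hLσ.2.1.restrictScalars ℝ
  have hN1 : volume (σ '' (N ∩ τ '' U)) = 0 :=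
    addHaar_image_eq_zero_of_differentiableOn_of_addHaar_eq_zero volume
      (hσd.mono inter_subset_right) (measure_mono_null inter_subset_left hN0)
  have hae : ∀ᵐ z ∂(volume.restrict (ball x r)), u (τ z) = u z := by
    rw [ae_restrict_iff' isOpen_ball.measurableSet]
    have h1 : ∀ᵐ z, z ∉ N := by
      rw [ae_iff]
      simpa using hN0
    have h2 : ∀ᵐ z, z ∉ σ '' (N ∩ τ '' U) := by
      rw [ae_iff]
      simp only [not_not]
      exact hN1
    filter_upwards [h1, h2] with z hz1 hz2 hzb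
    have hzB : z ∈ B := ball_subset_closedBall hzb
    have hzU : z ∈ U := hrU hzB
    have h3 : Tendsto (fun k => φ (ns k) z) atTop (𝓝 (u z)) := by
      by_contra hcon
      exact hz1 fun hh => hcon (hh (Or.inl hzB))
    have h4 : Tendsto (fun k => φ (ns k) (τ z)) atTop (𝓝 (u (τ z))) := by
      by_contra hcon
      refine hz2 ⟨τ z, ⟨fun hh => hcon (hh (Or.inr (mem_image_of_mem τ hzB))),
        mem_image_of_mem τ hzU⟩, hστ z hzU⟩
    have h5 : ∀ k, φ (ns k) (τ z) = φ (ns k) z := fun k =>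
      (hφ (ns k)).2 γ _ _ (hL.2.2 z hzU)
    simp only [h5] at h4
    exact tendsto_nhds_unique h4 h3
  have hbU : ball x r ⊆ U := ball_subset_closedBall.trans hrU
  have heq := Measure.eqOn_open_of_ae_eq (μ := (volume : Measure (Cn n))) hae isOpen_ball
    (hu.continuousOn.comp (hτc.mono hbU) fun z hz => (hE.mem _ _ _ (hL.2.2 z (hbU hz))).2)
    (hu.continuousOn.mono (hbU.trans hUT))
  have := heq (mem_ball_self hr)
  simp only [hτ] at this
  exact this

/-- HODG. -/
theorem hodg (hWIRT : S_WIRT) (hARRB : S_ARRB.{u}) (hDETI : S_DETI.{u}) (hPUE : S_PUE.{u})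
    (hBOX : S_BOX.{u}) (hL2C : S_L2C.{u}) (hL2LIM : S_L2LIM) (hPROJ : S_PROJ.{u})
    (hCONI : S_CONI.{u}) (hPOIN : S_POIN.{u}) (hLMID : S_LMID.{u}) (hLML2 : S_LML2.{u})
    (hWEYL : S_WEYL) : S_HODG.{u} := by
  intro n T G _ R H hK v hv hvD
  obtain ⟨κ, hC⟩ := exists_ctx hDETI hPUE hK
  obtain ⟨φ, hφ, hφ0, hlim⟩ := hC.stepA hWIRT hARRB hLMID hBOX hPROJ hCONI hv hvD
  obtain ⟨f, hf⟩ := hC.stepB hWIRT hARRB hLMID hBOX hPOIN hL2C hL2LIM hv hvD φ hφ hφ0 hlim
  obtain ⟨g, hg, hg0, hgf⟩ := hWEYL T hC.isOpen (fun x => v x - f x) (by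
    intro C hCT hCc
    have : IsFiniteMeasure (volume.restrict C : Measure (Cn n)) :=
      ⟨by simpa using hCc.measure_lt_top⟩
    exact ((memLp_cpt hCc (hv.continuousOn.mono hCT)).sub (hf C hCT hCc).1).integrable
      (by norm_num))
    (fun ψ hψ e => hC.stepC hLMID hLML2 hv hvD φ hφ hlim f hf ψ hψ e)
  refine ⟨fun x => v x - g x, inv_of_limit hARRB hK.et φ hφ f hf _ (hv.sub hg) ?_, ?_⟩
  · filter_upwards [hgf] with x hx
    linarith
  · intro x hx e
    have : (fun y => v y - (v y - g y)) = g := by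
      ext y
      ring
    rw [this]
    exact hg0 x hx e

end Pool.Agent.Helper93.SP
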