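import Pool.Agent.Helper10.SP.GoalsI
import Pool.Agent.Helper35.SP.PAX
import Pool.Agent.Helper93.SP.HODG

/-! # Packet INTB: integration over the base -/

open Complex Metric Set Filter Topology MeasureTheory
open scoped ContDiff ComplexConjugate ComplexOrder Manifold

namespace Pool.Agent.Helper93.SP

open Pool.Agent.Helper95.Lin Pool.Agent.Helper16.Abund Pool.Agent.Helper92.Orb
open Pool.Agent.Helper10.SP Pool.Agent.Helper35.SP

universe u v

section calculus

variable {b : ℕ}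

theorem base_single_cast (j : Fin b) (c : ℂ) :
    base (Pi.single (Fin.castAdd 1 j) c : Cn (b + 1)) = Pi.single j c := by
  ext k
  by_cases hk : k = j
  · subst hk
    simp [base]
  · have : Fin.castAdd 1 k ≠ Fin.castAdd 1 j := fun h => hk (Fin.castAdd_injective _ _ h)
    simp [base, this, hk]

theorem base_single_last (c : ℂ) :
    base (Pi.single (Fin.natAdd b 0) c : Cn (b + 1)) = 0 := by
  ext i
  have h : Fin.castAdd 1 i ≠ Fin.natAdd b 0 := by
    intro h
    have h' := congrArg Fin.val h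
    simp at h'
    omega
  simp [base, h]

theorem hasFDerivAt_base (x : Cn (b + 1)) :
    HasFDerivAt (fun x : Cn (b + 1) => base x) ((baseL b).restrictScalars ℝ) x := by
  have := ((baseL b).hasFDerivAt (x := x)).restrictScalars ℝ
  simpa [funext fun x => (baseL_apply (b := b) x)] using this

theorem fderiv_comp_base {f : Cn b → ℂ} {x : Cn (b + 1)} (hf : DifferentiableAt ℝ f (base x))
    (e : Cn (b + 1)) : fderiv ℝ (fun y : Cn (b + 1) => f (base y)) x e =
      fderiv ℝ f (base x) (base e) := by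
  have h := (hf.hasFDerivAt.comp x (hasFDerivAt_base x)).fderiv
  have h2 : fderiv ℝ (fun y : Cn (b + 1) => f (base y)) x =
      (fderiv ℝ f (base x)).comp ((baseL b).restrictScalars ℝ) := h
  rw [h2]
  simp [baseL_apply]

theorem cd_base_cast {f : Cn b → ℂ} {x : Cn (b + 1)} (hf : DifferentiableAt ℝ f (base x))
    (j : Fin b) : cd (Fin.castAdd 1 j) (fun y : Cn (b + 1) => f (base y)) x =
      cd j f (base x) := by
  unfold cd
  rw [fderiv_comp_base hf, fderiv_comp_base hf, base_single_cast, base_single_cast]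

theorem cd_base_last {f : Cn b → ℂ} {x : Cn (b + 1)} (hf : DifferentiableAt ℝ f (base x)) :
    cd (Fin.natAdd b 0) (fun y : Cn (b + 1) => f (base y)) x = 0 := by
  unfold cd
  rw [fderiv_comp_base hf, fderiv_comp_base hf, base_single_last, base_single_last]
  simp

theorem cd_mul {n : ℕ} (l : Fin n) {f g : Cn n → ℂ} {x : Cn n} (hf : DifferentiableAt ℝ f x)
    (hg : DifferentiableAt ℝ g x) :
    cd l (fun y => f y * g y) x = f x * cd l g x + g x * cd l f x := by
  unfold cd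
  rw [fderiv_fun_mul hf hg]
  simp only [add_apply, smul_apply, smul_eq_mul]
  ring

theorem cd_neg {n : ℕ} (l : Fin n) {f : Cn n → ℂ} {x : Cn n} :
    cd l (fun y => - f y) x = - cd l f x := by
  unfold cd
  rw [fderiv_fun_neg]
  simp only [neg_apply]
  ring

theorem sum_last (f : Fin (b + 1) → ℂ) :
    ∑ i, f i = ∑ j : Fin b, f (Fin.castAdd 1 j) + f (Fin.natAdd b 0) := by
  rw [Fin.sum_univ_add]
  simp

theorem contDiff_base {E : Type*} [NormedAddCommGroup E] [NormedSpace ℝ E] {D : Set (Cn b)}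
    {f : Cn b → E} (hf : ContDiffOn ℝ ∞ f D) :
    ContDiffOn ℝ ∞ (fun y : Cn (b + 1) => f (base y)) (tubeS D) := by
  have h : ContDiff ℝ ∞ (fun x : Cn (b + 1) => base x) := by
    have := ((baseL b).restrictScalars ℝ).contDiff (n := ∞)
    simpa [funext fun x => (baseL_apply (b := b) x)] using this
  exact hf.comp h.contDiffOn fun x hx => hx

end calculus

section lift

variable {b : ℕ}

/-- The horizontal lift of the density valued field. -/
noncomputable def Yp (μ : Cn b → ℝ) (H : Cn (b + 1) → Matrix (Fin (b + 1)) (Fin (b + 1)) ℂ)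
    (Y : Cn b → Cn b) (x : Cn (b + 1)) : Cn (b + 1) :=
  pt (fun j => H x (Fin.natAdd b 0) (Fin.natAdd b 0) * ((μ (base x) : ℂ) * Y (base x) j))
    (- ∑ j, H x (Fin.castAdd 1 j) (Fin.natAdd b 0) * ((μ (base x) : ℂ) * Y (base x) j))

theorem Yp_cast (μ : Cn b → ℝ) (H : Cn (b + 1) → Matrix (Fin (b + 1)) (Fin (b + 1)) ℂ)
    (Y : Cn b → Cn b) (x : Cn (b + 1)) (j : Fin b) : Yp μ H Y x (Fin.castAdd 1 j) =
      H x (Fin.natAdd b 0) (Fin.natAdd b 0) * ((μ (base x) : ℂ) * Y (base x) j) := by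
  simp [Yp, pt]

theorem Yp_last (μ : Cn b → ℝ) (H : Cn (b + 1) → Matrix (Fin (b + 1)) (Fin (b + 1)) ℂ)
    (Y : Cn b → Cn b) (x : Cn (b + 1)) : Yp μ H Y x (Fin.natAdd b 0) =
      - ∑ j, H x (Fin.castAdd 1 j) (Fin.natAdd b 0) * ((μ (base x) : ℂ) * Y (base x) j) := by
  simp [Yp, pt]

theorem base_Yp (μ : Cn b → ℝ) (H : Cn (b + 1) → Matrix (Fin (b + 1)) (Fin (b + 1)) ℂ)
    (Y : Cn b → Cn b) (x : Cn (b + 1)) : base (Yp μ H Y x) =
      fun j => H x (Fin.natAdd b 0) (Fin.natAdd b 0) * ((μ (base x) : ℂ) * Y (base x) j) := by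
  simp [Yp, base_pt]

/-- The divergence of the horizontal lift. -/
theorem div_Yp {D : Set (Cn b)} (hD : IsOpen D) (μ : Cn b → ℝ)
    (H : Cn (b + 1) → Matrix (Fin (b + 1)) (Fin (b + 1)) ℂ) (Y : Cn b → Cn b)
    (hμ : ContDiffOn ℝ ∞ μ D) (hY : ContDiffOn ℝ ∞ Y D)
    (hH : ∀ i j, ContDiffOn ℝ ∞ (fun x => H x i j) (tubeS D))
    (hcl : ∀ x ∈ tubeS D, ∀ i j l, cd l (fun y => H y i j) x = cd i (fun y => H y l j) x)
    {x : Cn (b + 1)} (hx : x ∈ tubeS D) :
    ∑ k, cd k (fun y => Yp μ H Y y k) x =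
      H x (Fin.natAdd b 0) (Fin.natAdd b 0) *
        ∑ j, cd j (fun z => (μ z : ℂ) * Y z j) (base x) := by
  have hxD : base x ∈ D := hx
  have hT : IsOpen (tubeS D : Set (Cn (b + 1))) := isOpen_tubeS hD
  have hFs : ∀ j, ContDiffOn ℝ ∞ (fun z => (μ z : ℂ) * Y z j) D := fun j =>
    (Complex.ofRealCLM.contDiff.comp_contDiffOn hμ).mul
      ((contDiff_apply ℝ ℂ j).comp_contDiffOn hY)
  have hF : ∀ j, DifferentiableAt ℝ (fun z => (μ z : ℂ) * Y z j) (base x) := fun j =>
    ((hFs j).differentiableOn (by simp)).differentiableAt (hD.mem_nhds hxD)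
  have hFb : ∀ j, DifferentiableAt ℝ (fun y : Cn (b + 1) => (μ (base y) : ℂ) * Y (base y) j) x :=
    fun j => (hF j).comp x (hasFDerivAt_base x).differentiableAt
  have hHd : ∀ i j, DifferentiableAt ℝ (fun x => H x i j) x := fun i j =>
    ((hH i j).differentiableOn (by simp)).differentiableAt (hT.mem_nhds hx)
  rw [sum_last]
  have h1 : ∀ j : Fin b, cd (Fin.castAdd 1 j) (fun y => Yp μ H Y y (Fin.castAdd 1 j)) x =
      H x (Fin.natAdd b 0) (Fin.natAdd b 0) * cd j (fun z => (μ z : ℂ) * Y z j) (base x) +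
      ((μ (base x) : ℂ) * Y (base x) j) *
        cd (Fin.castAdd 1 j) (fun y => H y (Fin.natAdd b 0) (Fin.natAdd b 0)) x := by
    intro j
    simp only [Yp_cast]
    rw [cd_mul _ (hHd _ _) (hFb j), cd_base_cast (hF j)]
  have h2 : cd (Fin.natAdd b 0) (fun y => Yp μ H Y y (Fin.natAdd b 0)) x =
      - ∑ j : Fin b, ((μ (base x) : ℂ) * Y (base x) j) *
        cd (Fin.castAdd 1 j) (fun y => H y (Fin.natAdd b 0) (Fin.natAdd b 0)) x := by
    simp only [Yp_last]
    rw [cd_neg, cd_sum Finset.univ (Fin.natAdd b 0) (f := fun (j : Fin b) y =>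
      H y (Fin.castAdd 1 j) (Fin.natAdd b 0) * ((μ (base y) : ℂ) * Y (base y) j))
      (fun j _ => (hHd _ _).mul (hFb j))]
    congr 1
    refine Finset.sum_congr rfl fun j _ => ?_
    rw [cd_mul _ (hHd _ _) (hFb j), cd_base_last (hF j), mul_zero, zero_add,
      hcl x hx (Fin.castAdd 1 j) (Fin.natAdd b 0) (Fin.natAdd b 0)]
  rw [Finset.sum_congr rfl fun j _ => h1 j, h2, Finset.sum_add_distrib, Finset.mul_sum]
  ring

/-- The pairing with the fibre direction. -/
theorem hermi_ew (A : Matrix (Fin (b + 1)) (Fin (b + 1)) ℂ) (v : Cn (b + 1)) (c : ℂ) :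
    hermi A v (c • ew b) = conj c * (∑ j, A (Fin.castAdd 1 j) (Fin.natAdd b 0) * base v j +
      A (Fin.natAdd b 0) (Fin.natAdd b 0) * lc v) := by
  have h1 : ∀ i, ∑ j, A i j * v i * conj ((c • ew b) j) =
      conj c * (A i (Fin.natAdd b 0) * v i) := by
    intro i
    rw [Finset.sum_eq_single (Fin.natAdd b 0)]
    · simp [ew]
      ring
    · intro j _ hj
      simp [ew, hj]
    · simp
  unfold hermi
  rw [Finset.sum_congr rfl fun i _ => h1 i, ← Finset.mul_sum, sum_last]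
  rfl

/-- Transformation of the horizontal lift. -/
theorem Yp_trans (μ : Cn b → ℝ) (H : Cn (b + 1) → Matrix (Fin (b + 1)) (Fin (b + 1)) ℂ)
    (Y : Cn b → Cn b) (x y : Cn (b + 1)) (J : Cn (b + 1) →L[ℂ] Cn (b + 1)) (A : Cn b →L[ℂ] Cn b)
    (a : ℂ) (ha : a ≠ 0) (hJb : ∀ v, base (J v) = A (base v)) (hJe : J (ew b) = a • ew b)
    (hdet : J.det = A.det * a) (hpos : 0 < H y (Fin.natAdd b 0) (Fin.natAdd b 0))
    (hinv : ∀ u v, hermi (H y) (J u) (J v) = hermi (H x) u v)
    (hμ : μ (base x) = μ (base y) * ‖A.det‖ ^ 2) (hY : A (Y (base x)) = Y (base y)) :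
    J (Yp μ H Y x) = ((‖J.det‖ ^ 2 : ℝ) : ℂ) • Yp μ H Y y := by
  set w := Fin.natAdd b (0 : Fin 1) with hw
  have hca : conj a ≠ 0 := by simpa using ha
  have hww : H x w w = H y w w * (a * conj a) := by
    have h1 := hinv (ew b) (ew b)
    rw [hJe] at h1
    have h2 := hermi_ew (H y) (a • ew b) a
    have h3 := hermi_ew (H x) (ew b) 1
    rw [one_smul] at h3
    rw [h1, h3] at h2
    have e1 : base (a • ew b) = 0 := by
      have : a • ew b = pt 0 a := by rw [pt_eq, map_zero, zero_add]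
      rw [this, base_pt]
    have e2 : lc (a • ew b) = a := by
      have : a • ew b = pt 0 a := by rw [pt_eq, map_zero, zero_add]
      rw [this, lc_pt]
    rw [e1, e2, base_ew, lc_ew] at h2
    simp only [Pi.zero_apply, mul_zero, Finset.sum_const_zero, zero_add, map_one, one_mul,
      mul_one] at h2
    rw [h2]
    ring
  have hdetn : ((‖J.det‖ ^ 2 : ℝ) : ℂ) = ((‖A.det‖ ^ 2 : ℝ) : ℂ) * (a * conj a) := by
    rw [hdet, norm_mul, mul_pow]
    push_cast
    rw [Complex.mul_conj, Complex.normSq_eq_norm_sq]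
    push_cast
    ring
  -- the base part
  have hbase : ∀ j, base (J (Yp μ H Y x)) j =
      ((‖J.det‖ ^ 2 : ℝ) : ℂ) * (H y w w * ((μ (base y) : ℂ) * Y (base y) j)) := by
    intro j
    rw [hJb, base_Yp]
    have e : (fun j => H x w w * ((μ (base x) : ℂ) * Y (base x) j)) =
        (H x w w * (μ (base x) : ℂ)) • Y (base x) := by
      ext j
      simp only [Pi.smul_apply, smul_eq_mul]
      ring
    rw [e, map_smul, hY, hdetn, hww, hμ]
    simp only [Pi.smul_apply, smul_eq_mul]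
    push_cast
    ring
  -- the last component
  have horth : ∑ j, H y (Fin.castAdd 1 j) w * base (J (Yp μ H Y x)) j +
      H y w w * lc (J (Yp μ H Y x)) = 0 := by
    have h1 := hinv (Yp μ H Y x) (ew b)
    rw [hJe, hermi_ew] at h1
    have h2 : hermi (H x) (Yp μ H Y x) (ew b) = 0 := by
      have := hermi_ew (H x) (Yp μ H Y x) 1
      rw [one_smul] at this
      rw [this, base_Yp]
      have e3 : lc (Yp μ H Y x) = Yp μ H Y x w := rfl
      rw [e3, Yp_last, map_one, one_mul, mul_neg, Finset.mul_sum, ← sub_eq_add_neg,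
        ← Finset.sum_sub_distrib]
      refine Finset.sum_eq_zero fun j _ => ?_
      ring
    rw [h2] at h1
    exact (mul_eq_zero.1 h1).resolve_left hca
  have hlast : lc (J (Yp μ H Y x)) = ((‖J.det‖ ^ 2 : ℝ) : ℂ) * lc (Yp μ H Y y) := by
    have e3 : lc (Yp μ H Y y) = Yp μ H Y y w := rfl
    rw [e3, Yp_last]
    have hne : H y w w ≠ 0 := hpos.ne'
    apply mul_left_cancel₀ hne
    rw [eq_neg_of_add_eq_zero_right horth]
    simp only [hbase]
    rw [mul_neg, mul_neg, Finset.mul_sum, Finset.mul_sum]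
    congr 1
    refine Finset.sum_congr rfl fun j _ => ?_
    ring
  rw [← pt_eta (J (Yp μ H Y x)), ← pt_eta (((‖J.det‖ ^ 2 : ℝ) : ℂ) • Yp μ H Y y)]
  congr 1
  · ext j
    rw [hbase j]
    have : base (((‖J.det‖ ^ 2 : ℝ) : ℂ) • Yp μ H Y y) j =
        ((‖J.det‖ ^ 2 : ℝ) : ℂ) * Yp μ H Y y (Fin.castAdd 1 j) := rfl
    rw [this, Yp_cast]

end lift

theorem cd_smooth {n : ℕ} {D : Set (Cn n)} (hD : IsOpen D) {f : Cn n → ℂ}
    (hf : ContDiffOn ℝ ∞ f D) (l : Fin n) : ContDiffOn ℝ ∞ (cd l f) D := by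
  have h1 : ∀ e : Cn n, ContDiffOn ℝ ∞ (fun x => fderiv ℝ f x e) D := fun e =>
    (hf.fderiv_of_isOpen (m := ∞) hD (by simp)).clm_apply contDiffOn_const
  exact (h1 _).sub (contDiffOn_const.mul (h1 _))

theorem exists_arrow {n : ℕ} {T : Set (Cn n)} {G : Type u} [Group G]
    {R : G → Cn n → Cn n → Prop} {κ : Cn n → ℝ} (hκ : IsPUE T R κ) {x : Cn n} (hx : x ∈ T) :
    ∃ γ y, R γ x y ∧ κ y ≠ 0 := by
  by_contra hcon
  push Not at hcon
  have h1 := hκ.sum x hx
  have h2 : AS R x (fun _ y => κ y) = 0 := by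
    unfold AS
    have h3 : ∀ p : G × Cn n, ∑ᶠ (_ : R p.1 x p.2), κ p.2 = 0 := by
      intro p
      by_cases hp : R p.1 x p.2
      · simp [hp, hcon _ _ hp]
      · simp [hp]
    exact finsum_eq_zero_of_forall_eq_zero h3
  rw [h2] at h1
  exact zero_ne_one h1

/-- INTB. -/
theorem intb (hARRB : S_ARRB.{u}) (hPUE : S_PUE.{u}) (hDIVC : S_DIVC.{u}) (hPIO : S_PIO) :
    S_INTB.{u} := by
  intro b N G _ c R Rel P Φ C H hF μ hμs hμp hμi Y hY hYi hre
  have hK := hF.ket
  have hE := hK.et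
  set D : Set (Cn b) := Bd c 2 with hDdef
  have hD : IsOpen D := isOpen_iUnion fun i => isOpen_ball
  set T : Set (Cn (b + 1)) := tubeS D with hTdef
  have hT : IsOpen T := isOpen_tubeS hD
  obtain ⟨κ, hκ⟩ := hPUE T Rel hE
  set w := Fin.natAdd b (0 : Fin 1) with hw
  set Dv : Cn b → ℂ := fun z => ∑ j, cd j (fun y => (μ y : ℂ) * Y y j) z with hDv
  have hFs : ∀ j, ContDiffOn ℝ ∞ (fun z => (μ z : ℂ) * Y z j) D := fun j =>
    (Complex.ofRealCLM.contDiff.comp_contDiffOn hμs).mul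
      ((contDiff_apply ℝ ℂ j).comp_contDiffOn hY)
  have hDvs : ContDiffOn ℝ ∞ Dv D := by
    rw [hDv]
    exact ContDiffOn.sum fun j _ => cd_smooth hD (hFs j) j
  have hhol : ∀ V t, P V t → IsOpen V ∧ t.HolOn V ∧ ∀ z ∈ V, t.a z ≠ 0 := fun V t ht => by
    obtain ⟨h1, -, h3, h4, h5, h6⟩ := hF.fol.holo V t ht
    exact ⟨h1, ⟨h3, h4, h5⟩, fun z hz => (h6 z hz).2⟩
  -- the horizontal lift is invariant
  have hYps : ContDiffOn ℝ ∞ (Yp μ H Y) T := by
    rw [contDiffOn_pi]
    intro i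
    refine Fin.addCases (fun j => ?_) (fun j => ?_) i
    · simp only [Yp_cast]
      exact (hK.smooth _ _).mul (contDiff_base (hFs j))
    · have hj : j = 0 := Subsingleton.elim _ _
      subst hj
      simp only [Yp_last]
      exact (ContDiffOn.sum fun j _ => (hK.smooth _ _).mul (contDiff_base (hFs j))).neg
  have htr : ∀ U τ, Arr Rel U τ → ∀ x ∈ U, fderiv ℂ τ x (Yp μ H Y x) =
      ((‖(fderiv ℂ τ x).det‖ ^ 2 : ℝ) : ℂ) • Yp μ H Y (τ x) := by
    intro U τ hA x hx
    have hA' := hA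
    obtain ⟨hU, hτd, γ, hγ⟩ := hA'
    obtain ⟨V, t, hP, hxV, hVD, hVm, hτx, hrel⟩ := hF.toP γ x (τ x) (hγ x hx)
    obtain ⟨hV, hol, ha⟩ := hhol V t hP
    have hxV' : x ∈ tubeS V := hxV
    have hL : LAr Rel γ (tubeS V) (TM t) := by
      refine ⟨isOpen_tubeS hV, fun y hy =>
        (TM_deriv hV hol hy).differentiableAt.differentiableWithinAt, fun y hy => ?_⟩
      have := hrel (base y) hy (lc y)
      rw [pt_eta] at this
      exact this
    have heq : τ =ᶠ[𝓝 x] TM t := (hARRB T Rel hE).2.2.1 γ U (tubeS V) τ (TM t)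
      ⟨hU, hτd, hγ⟩ hL x hx hxV' hτx
    have hfd : fderiv ℂ τ x = fderiv ℂ (TM t) x := heq.fderiv_eq
    have hJ : ∀ v, fderiv ℂ τ x v = pt (fderiv ℂ t.g (base x) (base v))
        (lc x * fderiv ℂ t.a (base x) (base v) + t.a (base x) * lc v +
          fderiv ℂ t.β (base x) (base v)) := by
      intro v
      rw [hfd, (TM_deriv hV hol hxV').fderiv, pt_eq]
      simp [baseL_apply, lcL_apply]
    have hby : base (τ x) = t.g (base x) := by rw [hτx, base_pt]
    have hPB : PB c P V t := ⟨hP, hVD, hVm⟩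
    refine Yp_trans μ H Y x (τ x) (fderiv ℂ τ x) (fderiv ℂ t.g (base x)) (t.a (base x))
      (ha _ hxV) (fun v => by rw [hJ, base_pt]) ?_ ?_ ?_ (hK.inv U τ hA x hx) ?_ ?_
    · rw [hJ, base_ew, lc_ew, pt_eq]
      simp
    · rw [hfd, TM_det hV hol hxV']
    · exact (hK.posDef (τ x) (arr_mem hE hA hx).2).diag_pos
    · rw [hby]
      exact hμi V t hPB _ hxV
    · rw [hby]
      exact hYi V t hPB _ hxV
  have hint := hDIVC T Rel H hK κ hκ (Yp μ H Y) hYps htr
  -- the integrand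
  have hHre : ∀ x ∈ T, 0 < (H x w w).re ∧ (H x w w).im = 0 := by
    intro x hx
    have := (hK.posDef x hx).diag_pos (i := w)
    rw [Complex.pos_iff] at this
    exact ⟨this.1, this.2.symm⟩
  have hint2 : ∫ x in T, (κ x : ℂ) * (H x w w * Dv (base x)) = 0 := by
    rw [← hint]
    refine setIntegral_congr_fun hT.measurableSet fun x hx => ?_
    rw [div_Yp hD μ H Y hμs hY hK.smooth hK.closed hx]
  have hGs : ContDiffOn ℝ ∞ (fun x => (H x w w).re * (Dv (base x)).re) T :=
    (Complex.reCLM.contDiff.comp_contDiffOn (hK.smooth w w)).mul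
      (Complex.reCLM.contDiff.comp_contDiffOn (contDiff_base hDvs))
  have hGt := Pool.Agent.Helper70.Lin.testF_mul hT hκ.test hGs
  have hGint : ∫ x in T, κ x * ((H x w w).re * (Dv (base x)).re) = 0 := by
    have hcont : ContinuousOn (fun x => (κ x : ℂ) * (H x w w * Dv (base x))) T :=
      (Complex.continuous_ofReal.comp_continuousOn hκ.test.1.continuous.continuousOn).mul
        ((hK.smooth w w).continuousOn.mul (contDiff_base hDvs).continuousOn)
    have hi : IntegrableOn (fun x => (κ x : ℂ) * (H x w w * Dv (base x))) T := by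
      have h1 := (hcont.mono hκ.test.2.2).integrableOn_compact
        (μ := (volume : Measure (Cn (b + 1)))) hκ.test.2.1
      refine h1.of_forall_sdiff_eq_zero hT.measurableSet fun x hx => ?_
      rw [image_eq_zero_of_notMem_tsupport hx.2]
      simp
    have h2 := Complex.reCLM.integral_comp_comm hi
    rw [hint2] at h2
    simp only [Complex.reCLM_apply, zero_re] at h2
    rw [← h2]
    refine setIntegral_congr_fun hT.measurableSet fun x hx => ?_
    simp only [mul_re, ofReal_re, ofReal_im, (hHre x hx).2, zero_mul, sub_zero]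
  have hDvre : ∀ z ∈ D, 0 ≤ (Dv z).re := by
    intro z hz
    have h1 := hre z hz
    have h2 : ((μ z : ℂ)⁻¹ * ∑ j, cd j (fun y => (μ y : ℂ) * Y y j) z).re =
        (μ z)⁻¹ * (Dv z).re := by
      rw [← ofReal_inv, re_ofReal_mul]
    rw [h2] at h1
    exact nonneg_of_mul_nonneg_right h1 (inv_pos.2 (hμp z hz))
  have hG0 : ∀ x ∈ T, κ x ≠ 0 → (Dv (base x)).re = 0 := by
    intro x hx hκx
    by_contra hne
    have hGnn : ∀ y, 0 ≤ κ y * ((H y w w).re * (Dv (base y)).re) := by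
      intro y
      by_cases hy : y ∈ T
      · exact mul_nonneg (hκ.nonneg y) (mul_nonneg (hHre y hy).1.le (hDvre _ hy))
      · rw [image_eq_zero_of_notMem_tsupport fun h => hy (hκ.test.2.2 h), zero_mul]
    have hne' : κ x * ((H x w w).re * (Dv (base x)).re) ≠ 0 :=
      mul_ne_zero hκx (mul_ne_zero (hHre x hx).1.ne' hne)
    have h3 := hGt.1.continuous.integral_pos_of_hasCompactSupport_nonneg_nonzero
      (μ := (volume : Measure (Cn (b + 1)))) hGt.2.1 hGnn hne'
    rw [setIntegral_eq_integral_of_forall_compl_eq_zero] at hGint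
    · exact h3.ne' hGint
    · intro y hy
      rw [image_eq_zero_of_notMem_tsupport fun h => hy (hκ.test.2.2 h), zero_mul]
  -- conclusion
  intro z hz
  have hxT : pt z 0 ∈ T := by
    rw [hTdef]
    simp only [tubeS, mem_ofPred_eq, base_pt]
    exact hz
  obtain ⟨γ, y, hγ, hκy⟩ := exists_arrow hκ hxT
  obtain ⟨V, t, hP, hxV, hVD, hVm, hy, hrel⟩ := hF.toP γ _ y hγ
  rw [base_pt] at hxV hy
  obtain ⟨hV, hol, ha⟩ := hhol V t hP
  have hby : base y = t.g z := by rw [hy, base_pt]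
  have hPB : PB c P V t := ⟨hP, hVD, hVm⟩
  have hdet : ∀ z ∈ V, (fderiv ℂ t.g z).det ≠ 0 := fun z hz => (hF.fol.pot V t hP z hz).1
  have hμY : ContDiffOn ℝ ∞ (fun y => (μ y : ℂ) • Y y) D :=
    (Complex.ofRealCLM.contDiff.comp_contDiffOn hμs).smul hY
  have hpio := hPIO V D t.g hV hD hol.1 hVm hdet (fun y => (μ y : ℂ) • Y y)
    (fun y => (μ y : ℂ) • Y y) hμY (hμY.mono hVD) (fun x hx => by
      rw [map_smul, hYi V t hPB x hx, hμi V t hPB x hx, smul_smul]
      push_cast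
      rw [mul_comm]) z hxV
  have hz0 : (Dv (t.g z)).re = 0 := by
    rw [← hby]
    exact hG0 y (hE.mem _ _ _ hγ).2 hκy
  have hfin : Dv z = ((‖(fderiv ℂ t.g z).det‖ ^ 2 : ℝ) : ℂ) * Dv (t.g z) := hpio
  have h2 : ((μ z : ℂ)⁻¹ * ∑ j, cd j (fun y => (μ y : ℂ) * Y y j) z).re =
      (μ z)⁻¹ * (Dv z).re := by
    rw [← ofReal_inv, re_ofReal_mul]
  rw [h2, hfin, re_ofReal_mul, hz0, mul_zero, mul_zero]

end Pool.Agent.Helper93.SP
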