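import Pool.Agent.Helper10.SP.GoalsK
import Pool.Agent.Helper35.SP.BOX

/-! # Packet SONE: the smooth section -/

open Complex Metric Set Filter Topology MeasureTheory
open scoped ContDiff ComplexConjugate ComplexOrder Manifold

namespace Pool.Agent.Helper93.SP

open Pool.Agent.Helper95.Lin Pool.Agent.Helper16.Abund Pool.Agent.Helper92.Orb
open Pool.Agent.Helper10.SP

universe u v

theorem cdb_zero {n : ℕ} {f : Cn n → ℂ} {z : Cn n} (h : DifferentiableAt ℂ f z) (l : Fin n) :
    cdb l f z = 0 := by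
  unfold cdb
  have h1 : fderiv ℝ f z = (fderiv ℂ f z).restrictScalars ℝ := h.fderiv_restrictScalars ℝ
  have h2 : (Pi.single l I : Cn n) = I • Pi.single l 1 := by
    ext k
    by_cases hk : k = l
    · subst hk; simp
    · simp [hk]
  rw [h1, h2]
  simp only [ContinuousLinearMap.coe_restrictScalars', map_smul, smul_eq_mul, ← mul_assoc,
    I_mul_I]
  ring

/-- SONE. -/
theorem sone (hBSUM : S_BSUM) : S_SONE := by
  intro b N c R P Φ C hA n s hG i z₀ r₀ r₁ χ hχ
  have hC := hA.Cge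
  have hC0 : 0 < C := by linarith
  have hR := hA.Rge
  -- balls
  have hsub24 : ∀ j, ball (c j) 2 ⊆ ball (c j) 4 := fun j => ball_subset_ball (by norm_num)
  have hsubR : ∀ j, ball (c j) 4 ⊆ Bd c R := fun j =>
    (ball_subset_ball (by linarith)).trans (subset_iUnion (fun i => ball (c i) R) j)
  have hsub2 : ∀ j, ball (c j) 2 ⊆ Bd c 2 := fun j => subset_iUnion (fun i => ball (c i) 2) j
  have hdis : ∀ j j', ∀ z ∈ ball (c j) 2, z ∈ ball (c j') 2 → j' = j := by
    intro j j' z h1 h2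
    by_contra hne
    have h3 := hA.sep j' j hne
    rw [mem_ball, dist_eq_norm] at h1 h2
    have h4 : ‖c j' - c j‖ ≤ ‖z - c j‖ + ‖z - c j'‖ := by
      have : c j' - c j = (z - c j) - (z - c j') := by abel
      rw [this]
      exact norm_sub_le _ _
    linarith
  have hbs : ∀ M F j, ∀ z ∈ ball (c j) 2, bsum c n s M F z =
      ∑ k, F ((s j k).g z) * Jt (s j k) z ^ M := by
    intro M F j z hz
    unfold bsum
    rw [Finset.sum_eq_single j]
    · rw [indicator_of_mem hz]
    · intro j' _ hne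
      rw [indicator_of_notMem]
      intro h
      exact hne (hdis j j' z hz h)
    · simp
  have hz₀ := hχ.mem
  have hz₀c : z₀ ∈ closedBall z₀ r₀ := mem_closedBall_self (hχ.pos.trans hχ.lt).le
  -- the elements fixing z₀
  have hfix : ∀ k, ∀ z ∈ ball z₀ (r₁ / C), (s i k).g z₀ = z₀ → (s i k).g z ∈ ball z₀ r₁ := by
    intro k z hz hk
    have hr : r₁ / C ≤ r₀ := (div_le_self hχ.pos.le hC).trans hχ.lt.le
    have hz2 : z ∈ ball (c i) 2 := hχ.sub (ball_subset_closedBall (ball_subset_ball hr hz))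
    have := hA.lip i (s i k) (hG.big i k) z (hsub24 i hz2) z₀ (hsub24 i hz₀)
    rw [hk] at this
    rw [mem_ball, dist_eq_norm] at hz ⊢
    rw [lt_div_iff₀ hC0] at hz
    linarith
  have hr2 : 0 < r₁ / C := div_pos hχ.pos hC0
  have hr20 : r₁ / C ≤ r₀ := (div_le_self hχ.pos.le hC).trans hχ.lt.le
  have hball : ball z₀ (r₁ / C) ⊆ ball (c i) 2 := fun z hz =>
    hχ.sub (ball_subset_closedBall (ball_subset_ball hr20 hz))
  have hterm : ∀ k, ∀ z ∈ ball z₀ (r₁ / C), χ ((s i k).g z) =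
      if (s i k).g z₀ = z₀ then 1 else 0 := by
    intro k z hz
    split_ifs with hk
    · exact hχ.one _ (hfix k z hz hk)
    · refine hχ.supp _ fun h => hk ?_
      exact hχ.iso k ⟨z, ball_subset_closedBall (ball_subset_ball hr20 hz), h⟩
  have hJh : ∀ j k, DifferentiableOn ℂ (Jt (s j k)) (ball (c j) 4) := by
    intro j k
    obtain ⟨h1, -, h3, h4, -, -⟩ := hA.holo _ _ (hG.big j k).1
    exact (Pool.Agent.Helper35.SP.det_holo isOpen_ball h3).mul h4
  refine ⟨r₁ / C, hr2, fun M hM => ?_⟩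
  have hloc : ∀ z ∈ ball z₀ (r₁ / C), bsum c n s M (fun z => (χ z : ℂ)) z =
      ∑ k, (if (s i k).g z₀ = z₀ then 1 else 0) * Jt (s i k) z ^ M := by
    intro z hz
    rw [hbs M _ i z (hball hz)]
    refine Finset.sum_congr rfl fun k _ => ?_
    rw [hterm k z hz]
    split_ifs <;> simp
  have hhol : DifferentiableOn ℂ (bsum c n s M fun z => (χ z : ℂ)) (ball z₀ (r₁ / C)) := by
    refine DifferentiableOn.congr ?_ hloc
    refine DifferentiableOn.fun_sum fun k _ => ?_
    exact ((((hJh i k).mono ((hball.trans (hsub24 i)))).pow M).const_mul _)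
  refine ⟨?_, hhol, ?_⟩
  · rw [hloc z₀ (mem_ball_self hr2)]
    have h1 : ∀ k, (if (s i k).g z₀ = z₀ then (1 : ℂ) else 0) * Jt (s i k) z₀ ^ M =
        if (s i k).g z₀ = z₀ then 1 else 0 := by
      intro k
      split_ifs with hk
      · rw [hM.2 i (s i k) (hG.big i k) z₀ hz₀ hk, one_mul]
      · rw [zero_mul]
    rw [Finset.sum_congr rfl fun k _ => h1 k, Finset.sum_boole]
    obtain ⟨k, hk⟩ := hG.cov i Tri.one ⟨hA.one _ isOpen_ball (hsubR i), z₀, hz₀, hsub2 i hz₀⟩
    have hk0 : (s i k).g z₀ = z₀ := (hk z₀ (hsub24 i hz₀)).symm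
    have : 0 < (Finset.univ.filter fun k => (s i k).g z₀ = z₀).card :=
      Finset.card_pos.2 ⟨k, by simpa using hk0⟩
    exact_mod_cast this.ne'
  · rintro j z hz ⟨k, hk⟩ l
    obtain ⟨h1, -, h3, h4, -, -⟩ := hA.holo _ _ (hG.big j k).1
    have hcont : ContinuousAt (s j k).g z :=
      ((h3 z (hsub24 j hz)).differentiableAt (isOpen_ball.mem_nhds (hsub24 j hz))).continuousAt
    have hkb : (s j k).g z ∈ ball z₀ (r₁ / C) := by rwa [mem_ball, dist_eq_norm]
    have hU : IsOpen (ball (c j) 2 ∩ (s j k).g ⁻¹' ball z₀ (r₁ / C)) :=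
      (h3.mono (hsub24 j)).continuousOn.isOpen_inter_preimage isOpen_ball isOpen_ball
    set U := ball (c j) 2 ∩ (s j k).g ⁻¹' ball z₀ (r₁ / C) with hUdef
    have hzU : z ∈ U := ⟨hz, hkb⟩
    have hPB : PB c P U (s j k) := ⟨hA.mono _ _ _ (hG.big j k).1 hU
      (inter_subset_left.trans (hsub24 j)), inter_subset_left.trans (hsub2 j),
      fun y hy => hsub2 i (hball hy.2)⟩
    have hb := (hBSUM c R P Φ C hA n s hG M hM (fun z => (χ z : ℂ)) (closedBall z₀ r₀)
      (Complex.ofRealCLM.contDiff.comp hχ.smooth) (isCompact_closedBall _ _)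
      (hχ.sub.trans (hsub2 i)) (fun y hy => by simp [hχ.supp y hy])).2 U (s j k) hPB
    apply cdb_zero
    have hd : DifferentiableOn ℂ (fun y => bsum c n s M (fun z => (χ z : ℂ)) ((s j k).g y) *
        Jt (s j k) y ^ M) U :=
      (hhol.comp (h3.mono (inter_subset_left.trans (hsub24 j))) fun y hy => hy.2).mul
        (((hJh j k).mono (inter_subset_left.trans (hsub24 j))).pow M)
    exact ((hd.congr hb) z hzU).differentiableAt (hU.mem_nhds hzU)

end Pool.Agent.Helper93.SP
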